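import Pool.Agent.Lib.MP_a70d84_an.Ins.Trans

/-!
# Membership in the algebra of the finite sections
-/

set_option autoImplicit false
open MeasureTheory Filter Topology AddCircle

namespace Pool.Agent.Lib.MP_a70d84_an.Ins

lemma lp_congr (θ : Sym) (f : AddCircle (1 : ℝ) → ℂ) (h : ∀ᵐ t, θ t = f t) (m : ℤ) :
    fourierCoeff θ m = fourierCoeff f m := by
  have h3 : θ =ᵐ[haarAddCircle] f := by
    rw [← vol_haar]
    exact h
  rw [fourierCoeff_congr_ae h3]

section alg

variable {H : Type*} [NormedAddCommGroup H] [InnerProductSpace ℂ H]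
  {P : ℕ → (H →L[ℂ] H)}

lemma AA_mem (T S : H →L[ℂ] H) : AA P T S ∈ NonUnitalAlgebra.adjoin ℂ
    {(fun n => P n), (fun n => P n * T * P n), (fun n => P n * S * P n)} := by
  have h1 : (fun n => P n * T * P n) ∈ NonUnitalAlgebra.adjoin ℂ
    {(fun n => P n), (fun n => P n * T * P n), (fun n => P n * S * P n)} :=
    NonUnitalAlgebra.subset_adjoin ℂ (by simp)
  have h2 : (fun n => P n * S * P n) ∈ NonUnitalAlgebra.adjoin ℂ
    {(fun n => P n), (fun n => P n * T * P n), (fun n => P n * S * P n)} :=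
    NonUnitalAlgebra.subset_adjoin ℂ (by simp)
  have h3 : (fun n => P n) ∈ NonUnitalAlgebra.adjoin ℂ
    {(fun n => P n), (fun n => P n * T * P n), (fun n => P n * S * P n)} :=
    NonUnitalAlgebra.subset_adjoin ℂ (by simp)
  exact mul_mem (sub_mem h3 (mul_mem h1 h2)) (sub_mem h3 (mul_mem h2 h1))

variable [CompleteSpace H] (e : HilbertBasis ℕ ℂ H)

lemma InAlg_AA (hPP : ∀ n x, P n (P n x) = P n x) {θ : Sym} {T : H →L[ℂ] H}
    (hT : IsToeplitz e T θ) (B : Set Sym) (hB : Symbols B θ) :
    InAlg e P B (AA P T (ContinuousLinearMap.adjoint T)) := by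
  obtain ⟨-, h1, ⟨b, hb, hb2⟩, ⟨u, hu, hu2⟩⟩ := hB
  intro ε hε
  refine ⟨AA P T (ContinuousLinearMap.adjoint T), ?_,
    fun n => by rw [sub_self, norm_zero]; exact hε.le⟩
  have g1 : (fun n => P n * T * P n) ∈ Gens e P B := ⟨θ, h1, T, hT, fun n => rfl⟩
  have g2 : (fun n => P n * ContinuousLinearMap.adjoint T * P n) ∈ Gens e P B := by
    refine ⟨b, hb, ContinuousLinearMap.adjoint T, fun j k => ?_, fun n => rfl⟩
    rw [ContinuousLinearMap.adjoint_inner_right, ← inner_conj_symm, hT, lp_congr b _ hb2,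
      coeff_conj]
    congr 2
    ring
  have g3 : (fun n => P n) ∈ Gens e P B := by
    refine ⟨u, hu, 1, fun j k => ?_, fun n => ?_⟩
    · rw [lp_congr u _ hu2]
      have e1 : fourierCoeff (fun _ : AddCircle (1 : ℝ) => (1 : ℂ)) ((j : ℤ) - (k : ℤ))
          = if (j : ℤ) - k = 0 then 1 else 0 := by
        rw [fourierCoeff]
        simp only [smul_eq_mul, mul_one]
        rw [integral_fourier']
        rcases eq_or_ne ((j : ℤ) - k) 0 with h | h
        · rw [if_pos h, if_pos (by omega)]
        · rw [if_neg h, if_neg (by omega)]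
      have e2 : (1 : H →L[ℂ] H) (e k) = e k := rfl
      rw [e1, e2, orthonormal_iff_ite.1 e.orthonormal]
      simp only [sub_eq_zero, Nat.cast_inj]
    · ext x : 1
      have e3 : (P n * 1 * P n) x = P n (P n x) := rfl
      rw [e3, hPP]
  have h4 := AA_mem (P := P) T (ContinuousLinearMap.adjoint T)
  refine (NonUnitalAlgebra.adjoin_mono ?_) h4
  intro G hG
  simp only [Set.mem_insert_iff, Set.mem_singleton_iff] at hG
  rcases hG with rfl | rfl | rfl
  · exact g3
  · exact g1
  · exact g2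

lemma e_PP (hP : IsSection e P) (n : ℕ) (x : H) : P n (P n x) = P n x := by
  have h1 := PP (P := fun n => cj e (P n)) (section_cj e hP) n (e.repr x)
  rw [cj_apply, cj_apply, LinearIsometryEquiv.symm_apply_apply,
    LinearIsometryEquiv.symm_apply_apply] at h1
  exact e.repr.injective h1

end alg

end Pool.Agent.Lib.MP_a70d84_an.Ins
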