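import Pool.Agent.Lib.MP_a70d84_an.Ins.Disc

/-!
# A discontinuous inner function
-/

set_option autoImplicit false
open MeasureTheory Filter Topology AddCircle

namespace Pool.Agent.Lib.MP_a70d84_an.Ins

/-- atomic inner function -/
noncomputable def gg (z : ℂ) : ℂ := Complex.exp ((z + 1) / (z - 1))

lemma gg_re (z : ℂ) : ((z + 1) / (z - 1)).re = (‖z‖ ^ 2 - 1) / Complex.normSq (z - 1) := by
  rw [Complex.div_re, ← Complex.normSq_eq_norm_sq, Complex.normSq_apply z]
  simp only [Complex.add_re, Complex.one_re, Complex.sub_re, Complex.add_im, Complex.one_im,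
    Complex.sub_im]
  ring

lemma norm_gg (z : ℂ) : ‖gg z‖ = Real.exp ((‖z‖ ^ 2 - 1) / Complex.normSq (z - 1)) := by
  rw [gg, Complex.norm_exp, gg_re]

lemma norm_gg_le (z : ℂ) (hz : ‖z‖ ≤ 1) : ‖gg z‖ ≤ 1 := by
  rw [norm_gg, Real.exp_le_one_iff]
  apply div_nonpos_of_nonpos_of_nonneg
  · nlinarith [norm_nonneg z]
  · exact Complex.normSq_nonneg _

lemma norm_gg_eq (z : ℂ) (hz : ‖z‖ = 1) : ‖gg z‖ = 1 := by
  rw [norm_gg, hz]
  simp

lemma gg_diff : DifferentiableOn ℂ gg (Metric.ball 0 1) := by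
  intro z hz
  have h1 : z - 1 ≠ 0 := by
    intro h
    have : z = 1 := by linear_combination h
    rw [this] at hz
    simp at hz
  apply DifferentiableAt.differentiableWithinAt
  unfold gg
  fun_prop (disch := assumption)

lemma gg_cont (z : ℂ) (hz : z ≠ 1) : ContinuousAt gg z := by
  have h1 : z - 1 ≠ 0 := sub_ne_zero.2 hz
  unfold gg
  fun_prop (disch := assumption)

lemma gg_meas : Measurable gg := by
  unfold gg
  fun_prop

/-- Taylor coefficients -/
noncomputable def cT (n : ℕ) : ℂ := ((n.factorial : ℂ))⁻¹ * iteratedDeriv n gg 0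

lemma hasSum_gg (w : ℂ) (hw : ‖w‖ < 1) : HasSum (fun n : ℕ => cT n * w ^ n) (gg w) := by
  have h := Complex.hasSum_taylorSeries_on_ball gg_diff (z := w) (by simpa using hw)
  have h6 : (fun n : ℕ => cT n * w ^ n) =
      fun n : ℕ => ((n.factorial : ℂ))⁻¹ • (w - 0) ^ n • iteratedDeriv n gg 0 := by
    funext n
    simp only [cT, smul_eq_mul, sub_zero]
    ring
  rw [h6]
  exact h

/-- boundary function -/
noncomputable def af (t : AddCircle (1 : ℝ)) : ℂ := gg (fourier 1 t)

lemma norm_af (t : AddCircle (1 : ℝ)) : ‖af t‖ = 1 := norm_gg_eq _ (norm_fourier_apply _ _)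

lemma meas_af : Measurable af := gg_meas.comp (map_continuous (fourier 1)).measurable

lemma fourier_one_ne (x : ℝ) (h0 : 0 < x) (h1 : x < 1) :
    (fourier 1 (x : AddCircle (1 : ℝ)) : ℂ) ≠ 1 := by
  rw [fourier_coe_apply]
  intro h
  rw [Complex.exp_eq_one_iff] at h
  obtain ⟨n, hn⟩ := h
  have h2 : (x : ℂ) = n := by
    have h3 : (2 * (Real.pi : ℂ) * Complex.I) ≠ 0 := by
      simp [Real.pi_ne_zero]
    field_simp at hn
    simpa using hn
  have h4 : x = n := by exact_mod_cast h2
  rw [h4] at h0 h1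
  have h5 : (0 : ℤ) < n := by exact_mod_cast h0
  have h6 : n < (1 : ℤ) := by exact_mod_cast h1
  omega

lemma tendsto_coeff (m : ℤ) : Tendsto (fun k : ℕ => fourierCoeff
    (fun t : AddCircle (1 : ℝ) => gg (((1 - 1 / ((k : ℝ) + 1) : ℝ) : ℂ) * fourier 1 t)) m) atTop
    (𝓝 (fourierCoeff af m)) := by
  simp only [fourierCoeff_eq_intervalIntegral _ _ (0 : ℝ)]
  apply Tendsto.const_smul
  have hR : Tendsto (fun k : ℕ => (1 - 1 / ((k : ℝ) + 1) : ℝ)) atTop (𝓝 1) := by
    have := (tendsto_one_div_add_atTop_nhds_zero_nat (𝕜 := ℝ)).const_sub 1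
    simpa using this
  apply intervalIntegral.tendsto_integral_filter_of_dominated_convergence (fun _ => (1 : ℝ))
  · apply Eventually.of_forall
    intro k
    apply Measurable.aestronglyMeasurable
    simp only [smul_eq_mul]
    apply Measurable.mul
    · exact ((map_continuous (fourier (-m))).comp (AddCircle.continuous_mk' 1)).measurable
    · apply gg_meas.comp
      apply Measurable.const_mul
      exact ((map_continuous (fourier 1)).comp (AddCircle.continuous_mk' 1)).measurable
  · apply Eventually.of_forall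
    intro k
    apply Eventually.of_forall
    intro x _
    rw [norm_smul, norm_fourier_apply, one_mul]
    apply norm_gg_le
    rw [norm_mul, norm_fourier_apply, mul_one, Complex.norm_real]
    have h1 : 0 < 1 / ((k : ℝ) + 1) := by positivity
    have h2 : 1 / ((k : ℝ) + 1) ≤ 1 := by
      rw [div_le_one (by positivity)]
      linarith [Nat.cast_nonneg (α := ℝ) k]
    rw [Real.norm_of_nonneg (by linarith)]
    linarith
  · exact intervalIntegrable_const
  · have h1 : ∀ᵐ x : ℝ, x ≠ 1 := by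
      rw [ae_iff]
      simp
    filter_upwards [h1] with x hx hx2
    rw [Set.uIoc_of_le (by norm_num)] at hx2
    have hx3 : (fourier 1 (x : AddCircle (1 : ℝ)) : ℂ) ≠ 1 :=
      fourier_one_ne x hx2.1 (lt_of_le_of_ne (by simpa using hx2.2) hx)
    apply Tendsto.const_smul
    have h2 := gg_cont _ hx3
    apply h2.tendsto.comp
    have h3 : Tendsto (fun k : ℕ => (((1 - 1 / ((k : ℝ) + 1) : ℝ) : ℂ))) atTop (𝓝 ((1 : ℝ) : ℂ)) :=
      (Complex.continuous_ofReal.tendsto _).comp hR
    have h4 := h3.mul_const (fourier 1 (x : AddCircle (1 : ℝ)) : ℂ)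
    simpa using h4

lemma coeff_af_neg (m : ℤ) (hm : m < 0) : fourierCoeff af m = 0 := by
  have h1 := tendsto_coeff m
  have h2 : ∀ k : ℕ, fourierCoeff
    (fun t : AddCircle (1 : ℝ) => gg (((1 - 1 / ((k : ℝ) + 1) : ℝ) : ℂ) * fourier 1 t)) m = 0 := by
    intro k
    rw [coeff_R hasSum_gg, if_neg (by omega)]
    · have h2 : 1 / ((k : ℝ) + 1) ≤ 1 := by
        rw [div_le_one (by positivity)]
        linarith [Nat.cast_nonneg (α := ℝ) k]
      linarith
    · have h1 : 0 < 1 / ((k : ℝ) + 1) := by positivity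
      linarith
  simp only [h2] at h1
  exact (tendsto_nhds_unique h1 tendsto_const_nhds)

/-- The point of the circle with `(z + 1) / (z - 1) = - i s`. -/
noncomputable def ws (s : ℝ) : ℂ := (Complex.I * s - 1) / (Complex.I * s + 1)

lemma den_ne (s : ℝ) : Complex.I * s + 1 ≠ 0 := by
  intro h
  have h2 := congrArg Complex.re h
  simp at h2

lemma norm_ws (s : ℝ) : ‖ws s‖ = 1 := by
  have h1 : Complex.I * s - 1 = -(starRingEnd ℂ (Complex.I * s + 1)) := by
    simp
    ring
  have h2 : ‖Complex.I * (s : ℂ) + 1‖ ≠ 0 := norm_ne_zero_iff.2 (den_ne s)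
  rw [ws, h1, norm_div, norm_neg, RCLike.norm_conj, div_self h2]

lemma ws_sub (s : ℝ) : ws s - 1 = -2 / (Complex.I * s + 1) := by
  rw [ws]
  have := den_ne s
  field_simp
  ring

lemma ws_ne (s : ℝ) : ws s ≠ 1 := by
  intro h
  have h1 := ws_sub s
  rw [h, sub_self] at h1
  have h2 : (-2 : ℂ) / (Complex.I * s + 1) ≠ 0 := div_ne_zero (by norm_num) (den_ne s)
  exact h2 h1.symm

lemma gg_ws (s : ℝ) : gg (ws s) = Complex.exp (-(Complex.I * s)) := by
  rw [gg]
  congr 1
  rw [ws_sub, ws]
  have := den_ne s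
  field_simp
  ring

lemma tendsto_ws : Tendsto (fun s : ℝ => ws s) atTop (𝓝 1) := by
  rw [tendsto_iff_norm_sub_tendsto_zero]
  have h1 : ∀ s : ℝ, 0 < s → ‖ws s - 1‖ ≤ 2 / s := by
    intro s hs
    rw [ws_sub, norm_div, norm_neg, Complex.norm_ofNat]
    apply div_le_div_of_nonneg_left (by norm_num) hs
    have h2 := Complex.abs_im_le_norm (Complex.I * (s : ℂ) + 1)
    have h3 : (Complex.I * (s : ℂ) + 1).im = s := by simp
    rw [h3, abs_of_pos hs] at h2
    exact h2
  apply squeeze_zero' (Eventually.of_forall fun _ => norm_nonneg _)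
    ((eventually_gt_atTop 0).mono h1)
  exact tendsto_const_nhds.div_atTop tendsto_id

/-- The boundary function of the atomic inner function is not continuous. -/
lemma af_not_cont : ¬ ∃ g : C(AddCircle (1 : ℝ), ℂ),
    af =ᵐ[(volume : Measure (AddCircle (1 : ℝ)))] g := by
  rintro ⟨g, hg⟩
  set H := homeomorphCircle (T := (1 : ℝ)) one_ne_zero with hH
  have hHf : ∀ t, ((H t : Circle) : ℂ) = fourier 1 t := by
    intro t
    rw [fourier_one, hH, homeomorphCircle_apply]
  have hU : IsOpen {t : AddCircle (1 : ℝ) | (fourier 1 t : ℂ) ≠ 1} :=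
    isOpen_ne_fun (map_continuous (fourier 1)) continuous_const
  have hc : ContinuousOn af {t : AddCircle (1 : ℝ) | (fourier 1 t : ℂ) ≠ 1} := by
    intro t ht
    apply ContinuousAt.continuousWithinAt
    exact (gg_cont _ ht).comp (map_continuous (fourier 1)).continuousAt
  have heq := Measure.eqOn_open_of_ae_eq (ae_restrict_of_ae hg) hU hc g.continuous.continuousOn
  have hval : ∀ s : ℝ, ∃ t : AddCircle (1 : ℝ), H t = ⟨ws s, by
      rw [← SetLike.mem_coe, Submonoid.coe_unitSphere, mem_sphere_zero_iff_norm]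
      exact norm_ws s⟩ := fun s => H.surjective _
  choose τ hτ using hval
  have hτ2 : ∀ s, (fourier 1 (τ s) : ℂ) = ws s := by
    intro s
    rw [← hHf, hτ]
  have hτg : ∀ s, g (τ s) = Complex.exp (-(Complex.I * s)) := by
    intro s
    rw [← heq (show τ s ∈ {t : AddCircle (1 : ℝ) | (fourier 1 t : ℂ) ≠ 1} by
      simp only [Set.mem_setOf_eq]
      rw [hτ2]
      exact ws_ne s), af, hτ2, gg_ws]
  have hτl : Tendsto (fun s => τ s) atTop (𝓝 (H.symm 1)) := by
    have h1 : Tendsto (fun s => H (τ s)) atTop (𝓝 (1 : Circle)) := by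
      have hind : Topology.IsInducing (fun z : Circle => (z : ℂ)) := ⟨rfl⟩
      have h2 : ((fun z : Circle => (z : ℂ)) ∘ fun s => H (τ s)) = fun s => ws s := by
        funext s
        simp only [Function.comp]
        rw [hHf, hτ2]
      refine (hind.tendsto_nhds_iff (f := fun s => H (τ s))).2 ?_
      rw [h2]
      exact tendsto_ws
    have h2 := (H.symm.continuous.tendsto 1).comp h1
    refine h2.congr fun s => ?_
    simp
  have hgl := (g.continuous.tendsto _).comp hτl
  have hl1 : Tendsto (fun n : ℕ => 2 * Real.pi * (n : ℝ)) atTop atTop :=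
    Tendsto.const_mul_atTop (by positivity) tendsto_natCast_atTop_atTop
  have hl2 : Tendsto (fun n : ℕ => 2 * Real.pi * (n : ℝ) + Real.pi) atTop atTop :=
    tendsto_atTop_add_const_right _ _ hl1
  have h1 := hgl.comp hl1
  have h2 := hgl.comp hl2
  have e1 : ∀ n : ℕ, Complex.exp (-(Complex.I * ((2 * Real.pi * (n : ℝ) : ℝ) : ℂ))) = 1 := by
    intro n
    rw [Complex.exp_eq_one_iff]
    refine ⟨-(n : ℤ), ?_⟩
    push_cast
    ring
  have e2 : ∀ n : ℕ, Complex.exp (-(Complex.I * ((2 * Real.pi * (n : ℝ) + Real.pi : ℝ) : ℂ)))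
      = -1 := by
    intro n
    have h3 : -(Complex.I * ((2 * Real.pi * (n : ℝ) + Real.pi : ℝ) : ℂ))
        = -(Complex.I * ((2 * Real.pi * (n : ℝ) : ℝ) : ℂ)) + -(Real.pi * Complex.I) := by
      push_cast
      ring
    rw [h3, Complex.exp_add, e1, Complex.exp_neg, Complex.exp_pi_mul_I]
    norm_num
  have h3 : g (H.symm 1) = 1 := by
    refine tendsto_nhds_unique h1 ?_
    have h4 : (g ∘ (fun s => τ s)) ∘ (fun n : ℕ => 2 * Real.pi * (n : ℝ)) = fun _ => 1 := by
      funext n
      simp only [Function.comp]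
      rw [hτg, e1]
    rw [h4]
    exact tendsto_const_nhds
  have h5 : g (H.symm 1) = -1 := by
    refine tendsto_nhds_unique h2 ?_
    have h4 : (g ∘ (fun s => τ s)) ∘ (fun n : ℕ => 2 * Real.pi * (n : ℝ) + Real.pi)
        = fun _ => -1 := by
      funext n
      simp only [Function.comp]
      rw [hτg, e2]
    rw [h4]
    exact tendsto_const_nhds
  rw [h3] at h5
  norm_num at h5

/-- There is a discontinuous inner function. -/
lemma exists_inner : ∃ θ : Sym, IsInner θ ∧ ¬ AECont θ := by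
  refine ⟨af, ⟨meas_af.aestronglyMeasurable, Eventually.of_forall norm_af, coeff_af_neg⟩, ?_⟩
  rintro ⟨g, hg1, hg2⟩
  exact af_not_cont ⟨⟨g, hg1⟩, hg2⟩

end Pool.Agent.Lib.MP_a70d84_an.Ins
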