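import Pool.Agent.Lib.MP_a70d84_an.Ins.Decay

/-!
# A discontinuous inner function is small at points near the circle
-/

set_option autoImplicit false
open MeasureTheory Filter Topology AddCircle

namespace Pool.Agent.Lib.MP_a70d84_an.Ins

section inner

variable (θ : AddCircle (1 : ℝ) → ℂ)
  (hm : AEStronglyMeasurable θ (haarAddCircle (T := (1 : ℝ))))
  (h1 : ∀ᵐ t ∂(haarAddCircle (T := (1 : ℝ))), ‖θ t‖ = 1)
  (h0 : ∀ k : ℤ, k < 0 → fourierCoeff θ k = 0)

include hm h1 in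
lemma memLp_θ : MemLp θ 2 (haarAddCircle (T := (1 : ℝ))) := by
  apply MemLp.of_bound hm 1
  filter_upwards [h1] with t ht
  exact ht.le

include hm h1 in
lemma cont_of_summable (hs : Summable (fun k : ℤ => ‖fourierCoeff θ k‖)) :
    ∃ g : C(AddCircle (1 : ℝ), ℂ), θ =ᵐ[haarAddCircle (T := (1 : ℝ))] g := by
  have hL := memLp_θ θ hm h1
  have h2 := hasSum_fourier_series_L2 hL.toLp
  have h3 : ∀ i : ℤ, fourierCoeff (⇑hL.toLp : AddCircle (1 : ℝ) → ℂ) i = fourierCoeff θ i :=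
    fun i => congrFun (fourierCoeff_congr_ae hL.coeFn_toLp) i
  simp only [h3] at h2
  have hs2 : Summable (fun k : ℤ => fourierCoeff θ k • (fourier k : C(AddCircle (1 : ℝ), ℂ))) := by
    apply Summable.of_norm
    refine hs.congr fun k => ?_
    rw [norm_smul, fourier_norm, mul_one]
  set g : C(AddCircle (1 : ℝ), ℂ) := ∑' k : ℤ, fourierCoeff θ k • (fourier k) with hg
  have h4 := (ContinuousMap.toLp (E := ℂ) 2 (haarAddCircle (T := (1 : ℝ))) ℂ).hasSum hs2.hasSum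
  simp only [map_smul] at h4
  have h5 : hL.toLp = ContinuousMap.toLp (E := ℂ) 2 (haarAddCircle (T := (1 : ℝ))) ℂ g :=
    h2.unique h4
  refine ⟨g, ?_⟩
  have h6 := hL.coeFn_toLp
  rw [h5] at h6
  exact h6.symm.trans (ContinuousMap.coeFn_toLp _ g)

include h1 in
lemma norm_coeff_le (k : ℤ) : ‖fourierCoeff θ k‖ ≤ 1 := by
  rw [fourierCoeff]
  have h2 : ∀ᵐ t ∂(haarAddCircle (T := (1 : ℝ))), ‖fourier (-k) t • θ t‖ ≤ 1 := by
    filter_upwards [h1] with t ht
    rw [norm_smul, norm_fourier_apply, ht, one_mul]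
  have h3 := norm_integral_le_of_norm_le_const h2
  simpa using h3

/-- The analytic extension. -/
noncomputable def ext (z : ℂ) : ℂ := ∑' l : ℕ, fourierCoeff θ (l : ℤ) * z ^ l

include h1 in
lemma hasSum_ext (z : ℂ) (hz : ‖z‖ < 1) :
    HasSum (fun l : ℕ => fourierCoeff θ (l : ℤ) * z ^ l) (ext θ z) := by
  have h2 : Summable (fun l : ℕ => fourierCoeff θ (l : ℤ) * z ^ l) := by
    apply Summable.of_norm_bounded (summable_geometric_of_lt_one (norm_nonneg z) hz)
    intro l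
    rw [norm_mul, norm_pow]
    have h3 := norm_coeff_le θ h1 l
    have h4 : 0 ≤ ‖z‖ ^ l := by positivity
    nlinarith
  exact h2.hasSum

include hm h1 h0 in
lemma norm_ext_le (z : ℂ) (hz : ‖z‖ < 1) : ‖ext θ z‖ ≤ 1 := by
  obtain ⟨T, hT⟩ := exists_pair θ hm h1 h0
  have hz' : ‖starRingEnd ℂ z‖ < 1 := by rw [RCLike.norm_conj]; exact hz
  have hs1 : HasSum (fun l : ℕ => starRingEnd ℂ (fourierCoeff θ (l : ℤ)) * (starRingEnd ℂ z) ^ l)
      (starRingEnd ℂ (ext θ z)) := by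
    have h3 := (Complex.conjCLE : ℂ →L[ℝ] ℂ).hasSum (hasSum_ext θ h1 z hz)
    have h4 : (fun l : ℕ => starRingEnd ℂ (fourierCoeff θ (l : ℤ)) * (starRingEnd ℂ z) ^ l)
        = fun l : ℕ => (Complex.conjCLE : ℂ →L[ℝ] ℂ) (fourierCoeff θ (l : ℤ) * z ^ l) := by
      funext l
      simp
    rw [h4]
    exact h3
  have h2 := S_qz hT _ hz' _ hs1
  have h3 : ‖ContinuousLinearMap.adjoint T (qz (starRingEnd ℂ z) hz')‖ ≤ 1 := by
    set x := qz (starRingEnd ℂ z) hz' with hx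
    set y := ContinuousLinearMap.adjoint T x with hy
    have h4 : ((‖y‖ ^ 2 : ℝ) : ℂ) = inner ℂ x (T y) := by
      rw [← hT.hS x y, ← hy, inner_self_eq_norm_sq_to_K]
      norm_cast
    have h5 : ‖(inner ℂ x (T y) : ℂ)‖ ≤ ‖x‖ * ‖T y‖ := norm_inner_le_norm _ _
    rw [← h4, norm_T hT, norm_qz, one_mul, Complex.norm_real, Real.norm_of_nonneg (by positivity)]
      at h5
    by_contra hcon
    have h6 : 1 < ‖y‖ := not_le.1 hcon
    nlinarith
  rw [h2, norm_smul, norm_qz, mul_one, RCLike.norm_conj] at h3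
  exact h3

include hm h1 h0 in
lemma parseval : HasSum (fun l : ℕ => ‖fourierCoeff θ (l : ℤ)‖ ^ 2) 1 := by
  have hL := memLp_θ θ hm h1
  have h2 := hasSum_sq_fourierCoeff hL.toLp
  have h3 : ∀ i : ℤ, fourierCoeff (⇑hL.toLp : AddCircle (1 : ℝ) → ℂ) i = fourierCoeff θ i :=
    fun i => congrFun (fourierCoeff_congr_ae hL.coeFn_toLp) i
  simp only [h3] at h2
  have h5 : ∫ t, ‖(hL.toLp : Lp ℂ 2 (haarAddCircle (T := (1 : ℝ)))) t‖ ^ 2 ∂haarAddCircle
      = 1 := by
    have h6 : ∫ t, ‖(hL.toLp : Lp ℂ 2 (haarAddCircle (T := (1 : ℝ)))) t‖ ^ 2 ∂haarAddCircle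
        = ∫ t : AddCircle (1 : ℝ), (1 : ℝ) ∂haarAddCircle := by
      apply integral_congr_ae
      filter_upwards [hL.coeFn_toLp, h1] with t ht ht2
      rw [ht, ht2]
      norm_num
    rw [h6]
    simp
  rw [h5] at h2
  rw [← (Nat.cast_injective (R := ℤ)).hasSum_iff] at h2
  · exact h2
  · intro i hi
    have h7 : i < 0 := by
      by_contra h8
      apply hi
      exact ⟨i.toNat, by simp; omega⟩
    rw [h0 i h7]
    simp

include hm h1 h0 in
/-- A discontinuous inner function takes small values near the circle. -/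
lemma exists_points (hd : ¬ ∃ g : C(AddCircle (1 : ℝ), ℂ), θ =ᵐ[haarAddCircle (T := (1 : ℝ))] g)
    (r : ℝ) (hr : r < 1) (δ : ℝ) (hδ : 0 < δ) : ∃ z : ℂ, r < ‖z‖ ∧ ‖z‖ < 1 ∧ ‖ext θ z‖ < δ := by
  by_contra hcon
  push Not at hcon
  obtain ⟨s, hs0, hs1, hs⟩ := decay (hasSum_ext θ h1) (norm_ext_le θ hm h1 h0)
    (parseval θ hm h1 h0) r δ hr hδ hcon
  apply hd
  apply cont_of_summable θ hm h1
  have h2 : Summable (fun l : ℕ => ‖fourierCoeff θ (l : ℤ)‖) := by
    apply Summable.of_nonneg_of_le (fun _ => norm_nonneg _) hs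
    exact (summable_geometric_of_lt_one hs0 hs1).mul_left _
  rw [← (Nat.cast_injective (R := ℤ)).summable_iff]
  · exact h2
  · intro i hi
    have h7 : i < 0 := by
      by_contra h8
      apply hi
      exact ⟨i.toNat, by simp; omega⟩
    rw [h0 i h7, norm_zero]

end inner

end Pool.Agent.Lib.MP_a70d84_an.Ins
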