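import Pool.Agent.Lib.MP_a70d84_an.Ins.Disc

/-!
# Inner functions bounded away from zero near the circle are continuous
-/

set_option autoImplicit false
open MeasureTheory Filter Topology AddCircle

namespace Pool.Agent.Lib.MP_a70d84_an.Ins

lemma integrable_of_cont {f : AddCircle (1 : ℝ) → ℂ} (hf : Continuous f) :
    Integrable f (haarAddCircle (T := (1 : ℝ))) :=
  hf.integrable_of_hasCompactSupport (HasCompactSupport.of_compactSpace _)

lemma integrable_of_cont' {f : AddCircle (1 : ℝ) → ℝ} (hf : Continuous f) :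
    Integrable f (haarAddCircle (T := (1 : ℝ))) :=
  hf.integrable_of_hasCompactSupport (HasCompactSupport.of_compactSpace _)

section coeffs

variable {c : ℕ → ℂ} {Θ : ℂ → ℂ}
  (hΘ : ∀ z : ℂ, ‖z‖ < 1 → HasSum (fun l : ℕ => c l * z ^ l) (Θ z))
  (hb : ∀ z : ℂ, ‖z‖ < 1 → ‖Θ z‖ ≤ 1)

include hΘ hb in
lemma diff_le (r₀ δ : ℝ) (hδ : 0 < δ) (hlow : ∀ z : ℂ, r₀ < ‖z‖ → ‖z‖ < 1 → δ ≤ ‖Θ z‖)
    (R : ℝ) (h0 : 0 < R) (hr : r₀ < R) (h1 : R < 1) (k : ℕ) :
    ‖(∫ t : AddCircle (1 : ℝ), (fun z : ℂ => z ^ k / Θ z) (R * fourier 1 t) ∂haarAddCircle)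
      - (R : ℂ) ^ (2 * k) * starRingEnd ℂ (c k)‖
      ≤ (1 - ∫ t : AddCircle (1 : ℝ), ‖Θ (R * fourier 1 t)‖ ^ 2 ∂haarAddCircle) / δ := by
  set f : AddCircle (1 : ℝ) → ℂ := fun t => Θ (R * fourier 1 t) with hf
  set e : AddCircle (1 : ℝ) → ℂ := fun t => ((R : ℂ) * fourier 1 t) with he
  have hfc : Continuous f := cont_R hΘ R h0.le h1
  have hec : Continuous e := continuous_const.mul (map_continuous (fourier 1))
  have hen : ∀ t, ‖e t‖ = R := fun t => norm_mul_fourier R h0.le t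
  have hfb : ∀ t, ‖f t‖ ≤ 1 := fun t => hb _ (by rw [norm_mul_fourier R h0.le]; exact h1)
  have hfl : ∀ t, δ ≤ ‖f t‖ := fun t => hlow _ (by rw [norm_mul_fourier R h0.le]; exact hr)
    (by rw [norm_mul_fourier R h0.le]; exact h1)
  have hfn : ∀ t, f t ≠ 0 := by
    intro t h2
    have h3 := hfl t
    rw [h2, norm_zero] at h3
    linarith
  have hmain : (R : ℂ) ^ (2 * k) * starRingEnd ℂ (c k)
      = ∫ t, e t ^ k * starRingEnd ℂ (f t) ∂haarAddCircle := by
    have h2 := coeff_R hΘ R h0.le h1 (k : ℤ)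
    rw [if_pos (by omega), Int.toNat_natCast, fourierCoeff] at h2
    have h3 := congrArg (starRingEnd ℂ) h2
    rw [← integral_conj, map_mul, map_pow, Complex.conj_ofReal] at h3
    have h4 : ∀ t : AddCircle (1 : ℝ), e t ^ k * starRingEnd ℂ (f t)
        = (R : ℂ) ^ k * starRingEnd ℂ (fourier (-(k : ℤ)) t • Θ (R * fourier 1 t)) := by
      intro t
      rw [smul_eq_mul, map_mul, ← fourier_neg, neg_neg]
      simp only [he, hf]
      rw [mul_pow]
      have h7 : (fourier (k : ℤ) t : ℂ) = (fourier 1 t) ^ k := by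
        rw [fourier_apply, fourier_apply]
        rw [one_zsmul, natCast_zsmul, AddCircle.toCircle_nsmul, Circle.coe_pow]
      rw [h7]
      ring
    simp only [h4]
    rw [integral_const_mul, h3]
    ring
  have hsub : (∫ t : AddCircle (1 : ℝ), (fun z : ℂ => z ^ k / Θ z) (R * fourier 1 t) ∂haarAddCircle)
      - (R : ℂ) ^ (2 * k) * starRingEnd ℂ (c k)
      = ∫ t, (e t ^ k / f t - e t ^ k * starRingEnd ℂ (f t)) ∂haarAddCircle := by
    rw [hmain, integral_sub]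
    · exact integrable_of_cont ((hec.pow k).div hfc hfn)
    · exact integrable_of_cont ((hec.pow k).mul (RCLike.continuous_conj.comp hfc))
  rw [hsub]
  have hint : Integrable (fun t => (1 - ‖f t‖ ^ 2) / δ) (haarAddCircle (T := (1 : ℝ))) := by
    apply integrable_of_cont'
    exact (continuous_const.sub (hfc.norm.pow 2)).div_const _
  have hle : ∀ᵐ t ∂(haarAddCircle (T := (1 : ℝ))),
      ‖e t ^ k / f t - e t ^ k * starRingEnd ℂ (f t)‖ ≤ (1 - ‖f t‖ ^ 2) / δ := by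
    apply Eventually.of_forall
    intro t
    have h2 : e t ^ k / f t - e t ^ k * starRingEnd ℂ (f t)
        = e t ^ k * ((1 - ((‖f t‖ ^ 2 : ℝ) : ℂ)) / f t) := by
      have h3 : ((‖f t‖ ^ 2 : ℝ) : ℂ) = f t * starRingEnd ℂ (f t) := by
        rw [Complex.mul_conj, Complex.normSq_eq_norm_sq]
      rw [h3]
      field_simp [hfn t]
    have h4 : 0 ≤ 1 - ‖f t‖ ^ 2 := by
      have := hfb t
      nlinarith [norm_nonneg (f t)]
    rw [h2, norm_mul, norm_pow, hen, norm_div]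
    have h5 : ‖(1 : ℂ) - ((‖f t‖ ^ 2 : ℝ) : ℂ)‖ = 1 - ‖f t‖ ^ 2 := by
      rw [← Complex.ofReal_one, ← Complex.ofReal_sub, Complex.norm_real, Real.norm_of_nonneg h4]
    rw [h5]
    have h6 : R ^ k ≤ 1 := pow_le_one₀ h0.le h1.le
    have h7 : (1 - ‖f t‖ ^ 2) / ‖f t‖ ≤ (1 - ‖f t‖ ^ 2) / δ := by
      apply div_le_div_of_nonneg_left h4 hδ (hfl t)
    have h8 : 0 ≤ (1 - ‖f t‖ ^ 2) / ‖f t‖ := div_nonneg h4 (norm_nonneg _)
    calc R ^ k * ((1 - ‖f t‖ ^ 2) / ‖f t‖) ≤ 1 * ((1 - ‖f t‖ ^ 2) / ‖f t‖) := by gcongr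
      _ ≤ _ := by rw [one_mul]; exact h7
  refine (norm_integral_le_of_norm_le hint hle).trans ?_
  have hi2 : Integrable (fun t => ‖f t‖ ^ 2) (haarAddCircle (T := (1 : ℝ))) :=
    integrable_of_cont' (hfc.norm.pow 2)
  rw [integral_div, integral_sub (integrable_const _) hi2, integral_const, probReal_univ, one_smul]

include hΘ hb in
lemma decay (hs : HasSum (fun l : ℕ => ‖c l‖ ^ 2) 1) (r₀ δ : ℝ) (hr0 : r₀ < 1) (hδ : 0 < δ)
    (hlow : ∀ z : ℂ, r₀ < ‖z‖ → ‖z‖ < 1 → δ ≤ ‖Θ z‖) :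
    ∃ r : ℝ, 0 ≤ r ∧ r < 1 ∧ ∀ k, ‖c k‖ ≤ δ⁻¹ * r ^ k := by
  set r : ℝ := (max r₀ 0 + 1) / 2 with hr
  have hm1 : max r₀ 0 < 1 := max_lt hr0 (by norm_num)
  have hm0 : 0 ≤ max r₀ 0 := le_max_right _ _
  have hmr : r₀ ≤ max r₀ 0 := le_max_left _ _
  have hrpos : 0 < r := by rw [hr]; linarith
  have hr1 : r < 1 := by rw [hr]; linarith
  have hrr : r₀ < r := by rw [hr]; linarith
  refine ⟨r, hrpos.le, hr1, fun k => ?_⟩
  set A : ℂ := ∫ t : AddCircle (1 : ℝ), (fun z : ℂ => z ^ k / Θ z) (r * fourier 1 t)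
    ∂haarAddCircle with hA
  have hU : IsOpen {z : ℂ | r₀ < ‖z‖ ∧ ‖z‖ < 1} :=
    (isOpen_lt continuous_const continuous_norm).inter (isOpen_lt continuous_norm continuous_const)
  have hdiff : DifferentiableOn ℂ (fun z : ℂ => z ^ k / Θ z) {z : ℂ | r₀ < ‖z‖ ∧ ‖z‖ < 1} := by
    apply DifferentiableOn.div
    · fun_prop
    · apply (diff_Θ hΘ).mono
      intro z hz
      rw [mem_ball_zero_iff]
      exact hz.2
    · intro z hz h2
      have h3 := hlow z hz.1 hz.2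
      rw [h2, norm_zero] at h3
      linarith
  have hconst : ∀ R : ℝ, r ≤ R → R < 1 →
      ∫ t : AddCircle (1 : ℝ), (fun z : ℂ => z ^ k / Θ z) (R * fourier 1 t) ∂haarAddCircle = A := by
    intro R h2 h3
    exact avg_const _ r R hrpos h2 hU (fun z hz1 hz2 => ⟨by linarith, by linarith⟩) hdiff
  set ρ : ℕ → ℝ := fun m => 1 - 1 / ((m : ℝ) + 2) with hρ
  have ha : Tendsto (fun m : ℕ => 1 / ((m : ℝ) + 2)) atTop (𝓝 0) := by
    have h1 := (tendsto_one_div_add_atTop_nhds_zero_nat (𝕜 := ℝ)).comp (tendsto_add_atTop_nat 1)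
    refine h1.congr fun m => ?_
    simp only [Function.comp]
    push_cast
    congr 1
    ring
  have hρl : Tendsto ρ atTop (𝓝 1) := by
    have h1 := ha.const_sub 1
    rw [sub_zero] at h1
    exact h1
  have hρ1 : ∀ m, ρ m < 1 := by
    intro m
    have : (0 : ℝ) < 1 / ((m : ℝ) + 2) := by positivity
    rw [hρ]
    simp only
    linarith
  have hρ0 : ∀ m, 0 < ρ m := by
    intro m
    have h1 : 1 / ((m : ℝ) + 2) ≤ 1 / 2 := by
      apply one_div_le_one_div_of_le (by norm_num)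
      linarith [Nat.cast_nonneg (α := ℝ) m]
    rw [hρ]
    simp only
    linarith
  have hsl : Tendsto (fun m => ∫ t : AddCircle (1 : ℝ), ‖Θ (ρ m * fourier 1 t)‖ ^ 2 ∂haarAddCircle)
      atTop (𝓝 1) := by
    have h2 : (fun m => ∫ t : AddCircle (1 : ℝ), ‖Θ (ρ m * fourier 1 t)‖ ^ 2 ∂haarAddCircle)
        = fun m => ∑' l : ℕ, ‖c l‖ ^ 2 * ρ m ^ (2 * l) := by
      funext m
      exact (parseval_R hΘ (ρ m) (hρ0 m).le (hρ1 m)).tsum_eq.symm
    rw [h2, ← hs.tsum_eq]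
    apply tendsto_tsum_of_dominated_convergence hs.summable
    · intro l
      have h3 := (hρl.pow (2 * l)).const_mul (‖c l‖ ^ 2)
      rw [one_pow, mul_one] at h3
      exact h3
    · apply Eventually.of_forall
      intro m l
      have h3 : ρ m ^ (2 * l) ≤ 1 := pow_le_one₀ (hρ0 m).le (hρ1 m).le
      have h4 : 0 ≤ ρ m ^ (2 * l) := pow_nonneg (hρ0 m).le _
      rw [Real.norm_of_nonneg (by positivity)]
      nlinarith [sq_nonneg ‖c l‖]
  have hlim : Tendsto (fun m => A - (ρ m : ℂ) ^ (2 * k) * starRingEnd ℂ (c k)) atTop (𝓝 0) := by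
    have h2 := (hsl.const_sub 1).div_const δ
    rw [sub_self, zero_div] at h2
    apply squeeze_zero_norm' _ h2
    filter_upwards [hρl.eventually (lt_mem_nhds hr1)] with m hm
    rw [← hconst (ρ m) hm.le (hρ1 m)]
    exact diff_le hΘ hb r₀ δ hδ hlow (ρ m) (hρ0 m) (by linarith) (hρ1 m) k
  have hlim2 : Tendsto (fun m => A - (ρ m : ℂ) ^ (2 * k) * starRingEnd ℂ (c k)) atTop
      (𝓝 (A - 1 * starRingEnd ℂ (c k))) := by
    apply Tendsto.const_sub
    apply Tendsto.mul_const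
    have h3 : Tendsto (fun m => (ρ m : ℂ)) atTop (𝓝 ((1 : ℝ) : ℂ)) :=
      (Complex.continuous_ofReal.tendsto _).comp hρl
    have h4 := h3.pow (2 * k)
    simpa using h4
  have hA2 : starRingEnd ℂ (c k) = A := by
    have := tendsto_nhds_unique hlim2 hlim
    rw [one_mul] at this
    exact (sub_eq_zero.1 this).symm
  have hn : ‖c k‖ = ‖A‖ := by
    rw [← hA2, RCLike.norm_conj]
  rw [hn, hA]
  have h5 : ∀ t : AddCircle (1 : ℝ), ‖(fun z : ℂ => z ^ k / Θ z) (r * fourier 1 t)‖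
      ≤ δ⁻¹ * r ^ k := by
    intro t
    simp only
    rw [norm_div, norm_pow, norm_mul_fourier r hrpos.le, div_eq_inv_mul]
    have h6 := hlow ((r : ℂ) * fourier 1 t) (by rw [norm_mul_fourier r hrpos.le]; exact hrr)
      (by rw [norm_mul_fourier r hrpos.le]; exact hr1)
    gcongr
  have h6 := norm_integral_le_of_norm_le_const (μ := haarAddCircle (T := (1 : ℝ)))
    (Eventually.of_forall h5)
  simpa using h6

end coeffs

end Pool.Agent.Lib.MP_a70d84_an.Ins
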