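import Mathlib

/-!
# Finite sections of Toeplitz operators: definitions

The Hardy space `H²` is represented by an arbitrary complex Hilbert space `H` with an orthonormal
basis `e 0, e 1, …` (for `H²` the functions `ζ ^ k`); the circle is `AddCircle (1 : ℝ)`. The elements
of `L^∞` are represented by essentially bounded functions on the circle.
-/

set_option autoImplicit false
open MeasureTheory Filter Topology

namespace Pool.Agent.Lib.MP_a70d84_an.Ins

/-- The sequence space `ℓ²(ℕ)`. -/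
noncomputable abbrev L2 := lp (fun _ : ℕ => ℂ) 2

/-- Complex functions on the circle `ℝ / ℤ`. -/
abbrev Sym := AddCircle (1 : ℝ) → ℂ

/-- `a` is an inner function: measurable, unimodular almost everywhere, with no Fourier coefficient
of negative index. -/
def IsInner (a : Sym) : Prop :=
  AEStronglyMeasurable a volume ∧ (∀ᵐ t, ‖a t‖ = 1) ∧ ∀ k : ℤ, k < 0 → fourierCoeff a k = 0

/-- `a` is almost everywhere equal to a continuous function. -/
def AECont (a : Sym) : Prop := ∃ g : Sym, Continuous g ∧ a =ᵐ[volume] g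

/-- `B` is a set of essentially bounded functions which contains `a` and, up to almost everywhere
equality, `conj a` and `1`. -/
def Symbols (B : Set Sym) (a : Sym) : Prop :=
  (∀ b ∈ B, MemLp b ⊤ volume) ∧ a ∈ B ∧ (∃ b ∈ B, ∀ᵐ t, b t = starRingEnd ℂ (a t)) ∧
    ∃ b ∈ B, ∀ᵐ t, b t = 1

section

variable {H : Type*} [NormedAddCommGroup H] [InnerProductSpace ℂ H]

/-- `e 0, e 1, …` is an orthonormal basis of `H`. -/
def IsBasis (e : ℕ → H) : Prop :=
  Orthonormal ℂ e ∧ (Submodule.span ℂ (Set.range e)).topologicalClosure = ⊤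

/-- `P n` is the projection onto the span of `e 0, …, e n`. -/
def IsSection (e : ℕ → H) (P : ℕ → (H →L[ℂ] H)) : Prop :=
  ∀ n j : ℕ, P n (e j) = if j ≤ n then e j else 0

/-- `W n` reverses `e 0, …, e n` and annihilates the other basis vectors. -/
def IsFlip (e : ℕ → H) (W : ℕ → (H →L[ℂ] H)) : Prop :=
  ∀ n j : ℕ, W n (e j) = if j ≤ n then e (n - j) else 0

/-- `T` is the Toeplitz operator with the symbol `a`: its matrix is `(â(j - k))`. -/
def IsToeplitz (e : ℕ → H) (T : H →L[ℂ] H) (a : Sym) : Prop :=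
  ∀ j k : ℕ, inner ℂ (e j) (T (e k)) = fourierCoeff a ((j : ℤ) - (k : ℤ))

/-- The sequence `A` lies in the ideal `J`: `A n = P n K P n + W n K' W n + C n` with `K`, `K'`
compact and `‖C n‖ → 0`. -/
def InJ (P W A : ℕ → (H →L[ℂ] H)) : Prop :=
  ∃ K K' : H →L[ℂ] H, IsCompactOperator K ∧ IsCompactOperator K' ∧
    ∃ C : ℕ → (H →L[ℂ] H), (∀ n, C n = P n * C n * P n) ∧
      Tendsto (fun n => ‖C n‖) atTop (𝓝 0) ∧
      ∀ n, A n = P n * K * P n + W n * K' * W n + C n

/-- The generators: the sequences `{P n T(a) P n}`, `a ∈ B`. -/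
def Gens (e : ℕ → H) (P : ℕ → (H →L[ℂ] H)) (B : Set Sym) : Set (ℕ → (H →L[ℂ] H)) :=
  {G | ∃ a ∈ B, ∃ T : H →L[ℂ] H, IsToeplitz e T a ∧ ∀ n, G n = P n * T * P n}

/-- The sequence `A` lies in the smallest algebra of sequences which contains
`{P n T(a) P n}` for `a ∈ B` and is closed in the supremum norm. -/
def InAlg (e : ℕ → H) (P : ℕ → (H →L[ℂ] H)) (B : Set Sym) (A : ℕ → (H →L[ℂ] H)) : Prop :=
  ∀ ε : ℝ, 0 < ε → ∃ D ∈ NonUnitalAlgebra.adjoin ℂ (Gens e P B), ∀ n, ‖A n - D n‖ ≤ ε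

/-- The strong limit of the sequence `A` is `B`. -/
def StrongLim (A : ℕ → (H →L[ℂ] H)) (B : H →L[ℂ] H) : Prop :=
  ∀ x, Tendsto (fun n => A n x) atTop (𝓝 (B x))

/-- The strong limits of `A n` and of `W n A n W n` exist and are compact, that is, `A` is
annihilated by `φ` and by `ψ`. -/
def InKernels (W A : ℕ → (H →L[ℂ] H)) : Prop :=
  (∃ K : H →L[ℂ] H, IsCompactOperator K ∧ StrongLim A K) ∧
  (∃ K : H →L[ℂ] H, IsCompactOperator K ∧ StrongLim (fun n => W n * A n * W n) K)

/-- The strong limits of `A n`, of `W n A n W n` and of their adjoints are `0`. -/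
def NullLimits [CompleteSpace H] (W A : ℕ → (H →L[ℂ] H)) : Prop :=
  StrongLim A 0 ∧ StrongLim (fun n => ContinuousLinearMap.adjoint (A n)) 0 ∧
  StrongLim (fun n => W n * A n * W n) 0 ∧
  StrongLim (fun n => ContinuousLinearMap.adjoint (W n * A n * W n)) 0

/-- The distance of `A` from `J` is at least `c`: `limsup ‖A n - P n K P n - W n K' W n‖ ≥ c` for all
compact `K`, `K'`. -/
def FarFromJ (P W A : ℕ → (H →L[ℂ] H)) (c : ℝ) : Prop :=
  ∀ K K' : H →L[ℂ] H, IsCompactOperator K → IsCompactOperator K' → ∀ a : ℝ, a < c →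
    ∃ᶠ n in atTop, a ≤ ‖A n - P n * K * P n - W n * K' * W n‖

/-- The sequence `{P n - T_n(a) T_n(b)} · {P n - T_n(b) T_n(a)}` with `T = T(a)`, `S = T(b)`. -/
noncomputable def AA (P : ℕ → (H →L[ℂ] H)) (T S : H →L[ℂ] H) (n : ℕ) : H →L[ℂ] H :=
  (P n - (P n * T * P n) * (P n * S * P n)) * (P n - (P n * S * P n) * (P n * T * P n))

/-- The sequence `AA` for `T = T(a)` and its adjoint `T(conj a)`. -/
noncomputable def SA [CompleteSpace H] (P : ℕ → (H →L[ℂ] H)) (T : H →L[ℂ] H) :
    ℕ → (H →L[ℂ] H) := AA P T (ContinuousLinearMap.adjoint T)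

end

end Pool.Agent.Lib.MP_a70d84_an.Ins
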