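import Pool.Agent.Lib.MP_a70d84_an.Ins.Toep

/-!
# Averages over circles and the decay of the Fourier coefficients

If the analytic extension of an inner function is bounded away from zero near the unit circle, then
the Fourier coefficients decay exponentially.
-/

set_option autoImplicit false
open MeasureTheory Filter Topology AddCircle

namespace Pool.Agent.Lib.MP_a70d84_an.Ins

/-- Integrals over `ℝ/ℤ` and circle averages. -/
lemma avg_eq (g : ℂ → ℂ) (R : ℝ) :
    ∫ t : AddCircle (1 : ℝ), g (R * fourier 1 t) ∂haarAddCircle = Real.circleAverage g 0 R := by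
  have h1 := fourierCoeff_eq_intervalIntegral (T := (1 : ℝ))
    (fun t : AddCircle (1 : ℝ) => g (R * fourier 1 t)) 0 0
  rw [fourierCoeff] at h1
  simp only [neg_zero, fourier_zero, one_smul, zero_add, one_div, inv_one] at h1
  rw [h1, Real.circleAverage]
  have h2 : ∀ x : ℝ, g (R * (fourier 1 (x : AddCircle (1 : ℝ)) : ℂ))
      = (fun s : ℝ => g (circleMap 0 R s)) (2 * Real.pi * x) := by
    intro x
    simp only [circleMap, zero_add]
    rw [fourier_coe_apply]
    congr 3
    push_cast
    ring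
  have h3 : ∫ x in (0 : ℝ)..1, g (R * (fourier 1 (x : AddCircle (1 : ℝ)) : ℂ))
      = ∫ x in (0 : ℝ)..1, (fun s : ℝ => g (circleMap 0 R s)) (2 * Real.pi * x) :=
    intervalIntegral.integral_congr fun x _ => h2 x
  rw [h3, intervalIntegral.integral_comp_mul_left (fun s : ℝ => g (circleMap 0 R s))
    (by positivity), mul_zero, mul_one]

/-- Averages of functions which are analytic on an annulus. -/
lemma avg_const (g : ℂ → ℂ) (r R : ℝ) (h0 : 0 < r) (hrR : r ≤ R) {U : Set ℂ} (hU : IsOpen U)
    (hsub : ∀ z : ℂ, r ≤ ‖z‖ → ‖z‖ ≤ R → z ∈ U) (hg : DifferentiableOn ℂ g U) :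
    ∫ t : AddCircle (1 : ℝ), g (R * fourier 1 t) ∂haarAddCircle
      = ∫ t : AddCircle (1 : ℝ), g (r * fourier 1 t) ∂haarAddCircle := by
  rw [avg_eq, avg_eq, Real.circleAverage_eq_circleIntegral (by linarith),
    Real.circleAverage_eq_circleIntegral (by linarith)]
  congr 1
  apply Complex.circleIntegral_sub_center_inv_smul_eq_of_differentiable_on_annulus_off_countable h0
    hrR Set.countable_empty
  · apply hg.continuousOn.mono
    intro z hz
    simp only [Set.mem_diff, Metric.mem_closedBall, dist_zero_right, Metric.mem_ball, not_lt] at hz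
    exact hsub z hz.2 hz.1
  · intro z hz
    simp only [Set.diff_empty, Set.mem_diff, Metric.mem_closedBall, dist_zero_right,
      Metric.mem_ball, not_le] at hz
    exact hg.differentiableAt (hU.mem_nhds (hsub z hz.2.le hz.1.le))

section coeffs

variable {c : ℕ → ℂ} {Θ : ℂ → ℂ}
  (hΘ : ∀ z : ℂ, ‖z‖ < 1 → HasSum (fun l : ℕ => c l * z ^ l) (Θ z))

lemma norm_mul_fourier (R : ℝ) (h0 : 0 ≤ R) (t : AddCircle (1 : ℝ)) :
    ‖(R : ℂ) * fourier 1 t‖ = R := by
  rw [norm_mul, Complex.norm_real, Real.norm_of_nonneg h0, norm_fourier_apply, mul_one]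

include hΘ in
lemma coeff_R (R : ℝ) (h0 : 0 ≤ R) (h1 : R < 1) (m : ℤ) :
    fourierCoeff (fun t : AddCircle (1 : ℝ) => Θ (R * fourier 1 t)) m
      = if 0 ≤ m then c m.toNat * (R : ℂ) ^ m.toNat else 0 := by
  rw [fourierCoeff]
  set F : ℕ → AddCircle (1 : ℝ) → ℂ := fun n t => (c n * (R : ℂ) ^ n) * fourier (n - m) t with hF
  have hnR := norm_mul_fourier R h0
  have hsum : ∀ t, HasSum (fun n => F n t) (fourier (-m) t • Θ (R * fourier 1 t)) := by
    intro t
    have h := (hΘ (R * fourier 1 t) (by rw [hnR]; exact h1)).mul_left (fourier (-m) t)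
    rw [smul_eq_mul]
    have h6 : (fun n => F n t) =
        fun n : ℕ => fourier (-m) t * (c n * ((R : ℂ) * fourier 1 t) ^ n) := by
      funext n
      have h7 : (fourier (n - m) t : ℂ) = fourier (-m) t * (fourier 1 t) ^ n := by
        rw [sub_eq_neg_add, fourier_add]
        congr 1
        rw [fourier_apply, fourier_apply]
        rw [one_zsmul, natCast_zsmul, AddCircle.toCircle_nsmul, Circle.coe_pow]
      simp only [hF]
      rw [h7]
      ring
    rw [h6]
    exact h
  have hsm : Summable fun n : ℕ => ‖c n * (R : ℂ) ^ n‖ := by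
    have h := (hΘ R (by rw [Complex.norm_real, Real.norm_of_nonneg h0]; exact h1)).summable
    exact h.norm
  have hFn : ∀ n t, ‖F n t‖ = ‖c n * (R : ℂ) ^ n‖ := by
    intro n t
    rw [hF]
    simp only [norm_mul, fourier_apply, Circle.norm_coe, mul_one]
  have hint : ∀ n, Integrable (F n) haarAddCircle := by
    intro n
    apply Integrable.const_mul
    exact (map_continuous (fourier (n - m))).integrable_of_hasCompactSupport
      (HasCompactSupport.of_compactSpace _)
  have key := hasSum_integral_of_summable_integral_norm (μ := haarAddCircle) hint (by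
    simp only [hFn, integral_const, probReal_univ, one_smul]
    exact hsm)
  have h2 : ∫ a, (∑' i, F i a) ∂haarAddCircle
      = ∫ t : AddCircle (1 : ℝ), fourier (-m) t • Θ (R * fourier 1 t) ∂haarAddCircle := by
    congr 1
    funext t
    exact (hsum t).tsum_eq
  rw [← h2, ← key.tsum_eq]
  have h3 : ∀ n : ℕ, ∫ t, F n t ∂haarAddCircle = if (n : ℤ) = m then c n * (R : ℂ) ^ n else 0 := by
    intro n
    rw [hF]
    simp only
    rw [integral_const_mul, integral_fourier']
    simp only [sub_eq_zero]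
    split_ifs <;> simp
  simp only [h3]
  split_ifs with hm
  · rw [tsum_eq_single m.toNat]
    · rw [if_pos (by omega)]
    · intro n hn
      rw [if_neg]
      omega
  · have h4 : ∀ n : ℕ, (if (n : ℤ) = m then c n * (R : ℂ) ^ n else 0) = 0 := by
      intro n
      rw [if_neg]
      omega
    simp only [h4, tsum_zero]

include hΘ in
lemma diff_Θ : DifferentiableOn ℂ Θ (Metric.ball 0 1) := by
  have h1 : ∀ R : ℝ, 0 < R → R < 1 → DifferentiableOn ℂ Θ (Metric.ball 0 R) := by
    intro R hR0 hR1
    have h2 : Summable fun n : ℕ => ‖c n‖ * R ^ n := by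
      have h := (hΘ R (by rw [Complex.norm_real, Real.norm_of_nonneg hR0.le]; exact hR1)).summable.norm
      refine h.congr fun n => ?_
      rw [norm_mul, norm_pow, Complex.norm_real, Real.norm_of_nonneg hR0.le]
    have h3 : DifferentiableOn ℂ (fun z => ∑' n : ℕ, c n * z ^ n) (Metric.ball 0 R) := by
      apply Complex.differentiableOn_tsum_of_summable_norm h2
      · intro n
        fun_prop
      · exact Metric.isOpen_ball
      · intro n z hz
        rw [norm_mul, norm_pow]
        have hz' : ‖z‖ ≤ R := by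
          rw [mem_ball_zero_iff] at hz
          exact hz.le
        gcongr
    refine h3.congr fun z hz => ?_
    rw [mem_ball_zero_iff] at hz
    exact (hΘ z (by linarith)).tsum_eq.symm
  intro z hz
  rw [mem_ball_zero_iff] at hz
  have h2 : 0 ≤ ‖z‖ := norm_nonneg z
  have h3 := h1 ((‖z‖ + 1) / 2) (by linarith) (by linarith)
  have h4 : z ∈ Metric.ball (0 : ℂ) ((‖z‖ + 1) / 2) := by
    rw [mem_ball_zero_iff]
    linarith
  exact (h3.differentiableAt (Metric.isOpen_ball.mem_nhds h4)).differentiableWithinAt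

include hΘ in
lemma cont_R (R : ℝ) (h0 : 0 ≤ R) (h1 : R < 1) :
    Continuous (fun t : AddCircle (1 : ℝ) => Θ (R * fourier 1 t)) := by
  have h2 : Continuous (fun t : AddCircle (1 : ℝ) => (R : ℂ) * fourier 1 t) :=
    continuous_const.mul (map_continuous (fourier 1))
  rw [← continuousOn_univ] at h2 ⊢
  apply (diff_Θ hΘ).continuousOn.comp h2
  intro t _
  simp only [mem_ball_zero_iff]
  rw [norm_mul_fourier R h0]
  exact h1

include hΘ in
lemma parseval_R (R : ℝ) (h0 : 0 ≤ R) (h1 : R < 1) :
    HasSum (fun l : ℕ => ‖c l‖ ^ 2 * R ^ (2 * l))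
      (∫ t : AddCircle (1 : ℝ), ‖Θ (R * fourier 1 t)‖ ^ 2 ∂haarAddCircle) := by
  have hc := cont_R hΘ R h0 h1
  have hm : MemLp (fun t : AddCircle (1 : ℝ) => Θ (R * fourier 1 t)) 2
      (haarAddCircle (T := (1 : ℝ))) :=
    hc.memLp_of_hasCompactSupport (HasCompactSupport.of_compactSpace _)
  have h2 := hasSum_sq_fourierCoeff hm.toLp
  have h3 := hm.coeFn_toLp
  have h4 : ∀ i : ℤ, fourierCoeff (⇑hm.toLp : AddCircle (1 : ℝ) → ℂ) i
      = if 0 ≤ i then c i.toNat * (R : ℂ) ^ i.toNat else 0 := by
    intro i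
    rw [fourierCoeff_congr_ae h3, coeff_R hΘ R h0 h1]
  have h5 : ∫ t, ‖(hm.toLp : Lp ℂ 2 (haarAddCircle (T := (1 : ℝ)))) t‖ ^ 2 ∂haarAddCircle
      = ∫ t : AddCircle (1 : ℝ), ‖Θ (R * fourier 1 t)‖ ^ 2 ∂haarAddCircle := by
    apply integral_congr_ae
    filter_upwards [h3] with t ht
    rw [ht]
  rw [h5] at h2
  rw [← (Nat.cast_injective (R := ℤ)).hasSum_iff] at h2
  · have h6 : (fun l : ℕ => ‖c l‖ ^ 2 * R ^ (2 * l))
        = (fun i : ℤ => ‖fourierCoeff (⇑hm.toLp : AddCircle (1 : ℝ) → ℂ) i‖ ^ 2) ∘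
          (Nat.cast : ℕ → ℤ) := by
      funext l
      simp only [Function.comp]
      rw [h4, if_pos (by omega), Int.toNat_natCast, norm_mul, norm_pow, Complex.norm_real,
        Real.norm_of_nonneg h0]
      ring
    rw [h6]
    exact h2
  · intro i hi
    have h7 : ¬ 0 ≤ i := by
      intro h8
      apply hi
      exact ⟨i.toNat, by simp; omega⟩
    rw [h4, if_neg h7]
    simp

end coeffs

end Pool.Agent.Lib.MP_a70d84_an.Ins
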