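import Pool.Agent.Lib.MP_a70d84_an.Ins.Low

/-!
# The distance of the sequence to the ideal `J`
-/

set_option autoImplicit false
open Filter Topology

namespace Pool.Agent.Lib.MP_a70d84_an.Ins

lemma gamma_ge (r : ℝ) (h0 : 0 < r) (h1 : r < 1) :
    (1 + r) * Real.exp (-(1 / r)) ≤ (1 - r ^ 2) * ((⌊1 / (1 - r)⌋₊ + 1) * r ^ ⌊1 / (1 - r)⌋₊) := by
  set n := ⌊1 / (1 - r)⌋₊ with hn
  have h2 : 0 < 1 - r := by linarith
  have h3 : (n : ℝ) ≤ 1 / (1 - r) := Nat.floor_le (by positivity)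
  have h4 : 1 / (1 - r) < n + 1 := Nat.lt_floor_add_one _
  have h5 : (n : ℝ) * (1 - r) ≤ 1 := by
    rw [le_div_iff₀ h2] at h3
    exact h3
  have h6 : 1 < ((n : ℝ) + 1) * (1 - r) := by
    rw [div_lt_iff₀ h2] at h4
    exact h4
  have h7 : Real.exp (-(1 / r)) ≤ r ^ n := by
    have h8 : 1 - r⁻¹ ≤ Real.log r := Real.one_sub_inv_le_log_of_pos h0
    have h9 : r ^ n = Real.exp (n * Real.log r) := by
      rw [mul_comm, Real.exp_mul, Real.exp_log h0, Real.rpow_natCast]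
    rw [h9, Real.exp_le_exp]
    have h10 : (n : ℝ) * (1 - r⁻¹) ≤ n * Real.log r := by gcongr
    refine le_trans ?_ h10
    have h11 : (n : ℝ) * (1 - r⁻¹) = -((n * (1 - r)) / r) := by
      field_simp
      ring
    rw [h11, neg_le_neg_iff]
    gcongr
  have h12 : 0 ≤ r ^ n := by positivity
  have h13 : (1 - r ^ 2) * ((n + 1) * r ^ n) = (1 + r) * (((n : ℝ) + 1) * (1 - r)) * r ^ n := by
    ring
  rw [h13]
  apply mul_le_mul _ h7 (Real.exp_pos _).le (by positivity)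
  nlinarith

section ops

variable {P W : ℕ → (L2 →L[ℂ] L2)}
  (hP : ∀ (n : ℕ) (x : L2) (j : ℕ), (P n x) j = if j ≤ n then x j else 0)
  (hW : ∀ (n : ℕ) (x : L2) (j : ℕ), (W n x) j = if j ≤ n then x (n - j) else 0)
  {T S T' S' : L2 →L[ℂ] L2} {c c' : ℤ → ℂ}
  (h : Pair T S c) (h' : Pair T' S' c') (hcc : ∀ l, c' l = starRingEnd ℂ (c l))

include hP hW h h' hcc in
/-- Test vectors: there are vectors `q` of norm one, weakly null, and `N m → ∞` with
`‖A_(N m) P q_m‖` at least a sequence with limit `(2 / e) ^ 4`. -/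
lemma test_vectors (Θ : ℂ → ℂ)
    (hΘ : ∀ z : ℂ, ‖z‖ < 1 → HasSum (fun l : ℕ => c l * z ^ l) (Θ z))
    (hz : ∀ r : ℝ, r < 1 → ∀ δ : ℝ, 0 < δ → ∃ z : ℂ, r < ‖z‖ ∧ ‖z‖ < 1 ∧ ‖Θ z‖ < δ) :
    ∃ (N : ℕ → ℕ) (q : ℕ → L2) (b : ℕ → ℝ), Tendsto N atTop atTop ∧ (∀ m, ‖q m‖ = 1) ∧
      (∀ M : ℕ → ℕ, ∀ j, Tendsto (fun m => (P (M m) (q m)) j) atTop (𝓝 0)) ∧
      (∀ M : ℕ → ℕ, ∀ j, Tendsto (fun m => (W (M m) (q m)) j) atTop (𝓝 0)) ∧
      Tendsto b atTop (𝓝 (16 * Real.exp (-4))) ∧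
      ∀ᶠ m in atTop, b m ≤ ‖AA P T S (N m) (P (N m) (q m))‖ := by
  have ha0 : ∀ m : ℕ, (0 : ℝ) < 1 / ((m : ℝ) + 2) := fun m => by positivity
  choose z hz1 hz2 hz3 using fun m : ℕ => hz (1 - 1 / ((m : ℝ) + 2)) (by linarith [ha0 m])
    (1 / ((m : ℝ) + 2)) (ha0 m)
  have ha : Tendsto (fun m : ℕ => 1 / ((m : ℝ) + 2)) atTop (𝓝 0) := by
    have h1 := (tendsto_one_div_add_atTop_nhds_zero_nat (𝕜 := ℝ)).comp (tendsto_add_atTop_nat 1)
    refine h1.congr fun m => ?_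
    simp only [Function.comp]
    push_cast
    congr 1
    ring
  have hr : Tendsto (fun m => ‖z m‖) atTop (𝓝 1) := by
    have h1 : Tendsto (fun m : ℕ => 1 - 1 / ((m : ℝ) + 2)) atTop (𝓝 1) := by
      simpa using ha.const_sub 1
    exact tendsto_of_tendsto_of_tendsto_of_le_of_le h1 tendsto_const_nhds
      (fun m => (hz1 m).le) (fun m => (hz2 m).le)
  have hrpos : ∀ m, 0 < ‖z m‖ := by
    intro m
    have h1 : 1 / ((m : ℝ) + 2) ≤ 1 / 2 := by
      apply one_div_le_one_div_of_le (by norm_num)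
      linarith [Nat.cast_nonneg (α := ℝ) m]
    linarith [hz1 m]
  have hzc : ∀ m, ‖starRingEnd ℂ (z m)‖ = ‖z m‖ := fun m => RCLike.norm_conj (z m)
  have hzc1 : ∀ m, ‖starRingEnd ℂ (z m)‖ < 1 := fun m => by rw [hzc]; exact hz2 m
  set N : ℕ → ℕ := fun m => ⌊1 / (1 - ‖z m‖)⌋₊ with hN
  set q : ℕ → L2 := fun m => qz (starRingEnd ℂ (z m)) (hzc1 m) with hq
  set a : ℕ → ℝ := fun m => 1 / ((m : ℝ) + 2) with haa
  set g : ℕ → ℝ := fun m => (1 + ‖z m‖) * Real.exp (-(1 / ‖z m‖)) with hg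
  have hgl : Tendsto g atTop (𝓝 (2 * Real.exp (-1))) := by
    have h1 : Tendsto (fun m => 1 / ‖z m‖) atTop (𝓝 (1 / 1)) := tendsto_const_nhds.div hr one_ne_zero
    have h2 : Tendsto (fun m => Real.exp (-(1 / ‖z m‖))) atTop (𝓝 (Real.exp (-(1 / 1)))) :=
      (Real.continuous_exp.tendsto _).comp h1.neg
    have h3 := (hr.const_add 1).mul h2
    rw [div_one] at h3
    have h4 : (1 : ℝ) + 1 = 2 := by norm_num
    rw [h4] at h3
    exact h3
  have hb : Tendsto (fun m => ((g m - a m) ^ 2 - a m) ^ 2) atTop (𝓝 (16 * Real.exp (-4))) := by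
    have h1 := ((((hgl.sub ha).pow 2).sub ha).pow 2)
    have h2 : ((2 * Real.exp (-1) - 0) ^ 2 - 0) ^ 2 = 16 * Real.exp (-4) := by
      have h3 : Real.exp (-4) = Real.exp (-1) ^ 4 := by
        rw [← Real.exp_nat_mul]
        norm_num
      rw [h3]
      ring
    rw [h2] at h1
    exact h1
  have hsq : Tendsto (fun m => √(1 - ‖starRingEnd ℂ (z m)‖ ^ 2)) atTop (𝓝 0) := by
    have h1 := ((hr.pow 2).const_sub 1).sqrt
    simp only [hzc]
    simpa using h1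
  refine ⟨N, q, fun m => ((g m - a m) ^ 2 - a m) ^ 2, ?_, fun m => norm_qz _ _, ?_, ?_, hb, ?_⟩
  · apply tendsto_nat_floor_atTop.comp
    have h1 : Tendsto (fun m : ℕ => (m : ℝ) + 2) atTop atTop :=
      tendsto_atTop_add_const_right _ _ tendsto_natCast_atTop_atTop
    refine tendsto_atTop_mono (fun m => ?_) h1
    rw [le_div_iff₀ (by linarith [hz2 m])]
    have h2 := hz1 m
    have h3 : 1 - ‖z m‖ ≤ 1 / ((m : ℝ) + 2) := by linarith
    calc ((m : ℝ) + 2) * (1 - ‖z m‖) ≤ ((m : ℝ) + 2) * (1 / ((m : ℝ) + 2)) := by gcongr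
      _ = 1 := by field_simp
  · intro M j
    apply squeeze_zero_norm _ hsq
    intro m
    rw [hP]
    split_ifs
    · exact norm_qz_apply_le _ _ _
    · rw [norm_zero]
      exact Real.sqrt_nonneg _
  · intro M j
    apply squeeze_zero_norm _ hsq
    intro m
    rw [hW]
    split_ifs
    · exact norm_qz_apply_le _ _ _
    · rw [norm_zero]
      exact Real.sqrt_nonneg _
  · have e1 : 0 < 2 * Real.exp (-1) := by positivity
    have h1 : ∀ᶠ m in atTop, a m ≤ g m := by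
      have h2 := hgl.sub ha
      rw [sub_zero] at h2
      filter_upwards [h2.eventually (lt_mem_nhds e1)] with m hm
      linarith
    have h2 : ∀ᶠ m in atTop, a m ≤ (g m - a m) ^ 2 := by
      have h2 := ((hgl.sub ha).pow 2).sub ha
      have e2 : 0 < (2 * Real.exp (-1) - 0) ^ 2 - 0 := by
        rw [sub_zero, sub_zero]
        positivity
      filter_upwards [h2.eventually (lt_mem_nhds e2)] with m hm
      linarith
    filter_upwards [h1, h2] with m h1m h2m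
    have hsum := hΘ (z m) (hz2 m)
    have hs1 : HasSum (fun l : ℕ => starRingEnd ℂ (c l) * (starRingEnd ℂ (z m)) ^ l)
        (starRingEnd ℂ (Θ (z m))) := by
      have h3 := (Complex.conjCLE : ℂ →L[ℝ] ℂ).hasSum hsum
      have h4 : (fun l : ℕ => starRingEnd ℂ (c l) * (starRingEnd ℂ (z m)) ^ l)
          = fun l : ℕ => (Complex.conjCLE : ℂ →L[ℝ] ℂ) (c l * z m ^ l) := by
        funext l
        simp
      rw [h4]
      exact h3
    have hs2 : HasSum (fun l : ℕ => starRingEnd ℂ (c' l) * (z m) ^ l) (Θ (z m)) := by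
      have h3 : (fun l : ℕ => starRingEnd ℂ (c' l) * (z m) ^ l) = fun l : ℕ => c l * (z m) ^ l := by
        funext l
        rw [hcc, Complex.conj_conj]
      rw [h3]
      exact hsum
    have hb1 := S_qz h (starRingEnd ℂ (z m)) (hzc1 m) _ hs1
    have hb2 := S_qz h' (z m) (hz2 m) _ hs2
    refine lower hP hW h h' hcc (N m) (q m) (qz (z m) (hz2 m)) (norm_qz _ _) (norm_qz _ _) _ _ (a m)
      ?_ (hz3 m).le hb1 hb2 (g m) ?_ h1m h2m
    · rw [RCLike.norm_conj]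
      exact (hz3 m).le
    · rw [hq]
      simp only
      rw [inner_W_qz hP hW _ _ _ _ (by rw [Complex.conj_conj]), hzc]
      exact gamma_ge _ (hrpos m) (hz2 m)

end ops

end Pool.Agent.Lib.MP_a70d84_an.Ins
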