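import Pool.Agent.Lib.MP_a70d84_an.Ins.Ops

/-!
# The lower bound: test vectors with geometric coordinates
-/

set_option autoImplicit false
open Filter Topology

namespace Pool.Agent.Lib.MP_a70d84_an.Ins

/-- Geometric vectors. -/
noncomputable def kz (u : ℂ) (hu : ‖u‖ < 1) : L2 :=
  ⟨fun j => u ^ j, by
    apply memℓp_gen
    have h : Summable fun j : ℕ => (‖u‖ ^ 2) ^ j := summable_geometric_of_lt_one (by positivity)
      (by nlinarith [norm_nonneg u])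
    refine h.congr ?_
    intro j
    rw [norm_pow, ← pow_mul, mul_comm 2 j, pow_mul]
    norm_num⟩

lemma kz_apply (u : ℂ) (hu : ‖u‖ < 1) (j : ℕ) : (kz u hu) j = u ^ j := rfl

lemma norm_kz_sq (u : ℂ) (hu : ‖u‖ < 1) : ‖kz u hu‖ ^ 2 = (1 - ‖u‖ ^ 2)⁻¹ := by
  have h2 : ((‖kz u hu‖ ^ 2 : ℝ) : ℂ) = ((1 - ‖u‖ ^ 2 : ℝ) : ℂ)⁻¹ := by
    have h3 : (inner ℂ (kz u hu) (kz u hu) : ℂ) = ((‖kz u hu‖ ^ 2 : ℝ) : ℂ) := by
      rw [inner_self_eq_norm_sq_to_K]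
      norm_cast
    rw [← h3, inner_sum_form]
    have h4 : ∀ j : ℕ, starRingEnd ℂ ((kz u hu) j) * (kz u hu) j = ((‖u‖ ^ 2 : ℝ) : ℂ) ^ j := by
      intro j
      rw [kz_apply, map_pow, ← mul_pow, ← Complex.normSq_eq_conj_mul_self,
        Complex.normSq_eq_norm_sq]
    rw [tsum_congr h4, tsum_geometric_of_norm_lt_one]
    · push_cast
      ring
    · rw [Complex.norm_real, Real.norm_of_nonneg (by positivity)]
      nlinarith [norm_nonneg u]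
  exact_mod_cast h2

/-- Normalised geometric vectors. -/
noncomputable def qz (u : ℂ) (hu : ‖u‖ < 1) : L2 :=
  ((√(1 - ‖u‖ ^ 2) : ℝ) : ℂ) • kz u hu

lemma one_sub_pos (u : ℂ) (hu : ‖u‖ < 1) : 0 < 1 - ‖u‖ ^ 2 := by
  nlinarith [norm_nonneg u]

lemma norm_qz (u : ℂ) (hu : ‖u‖ < 1) : ‖qz u hu‖ = 1 := by
  have h2 : ‖qz u hu‖ ^ 2 = 1 := by
    have h4 := one_sub_pos u hu
    rw [qz, norm_smul, mul_pow, norm_kz_sq, Complex.norm_real,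
      Real.norm_of_nonneg (Real.sqrt_nonneg _), Real.sq_sqrt h4.le]
    field_simp
  have h3 := norm_nonneg (qz u hu)
  nlinarith

lemma qz_apply (u : ℂ) (hu : ‖u‖ < 1) (j : ℕ) :
    (qz u hu) j = ((√(1 - ‖u‖ ^ 2) : ℝ) : ℂ) * u ^ j := by
  rw [qz, lp.coeFn_smul, Pi.smul_apply, kz_apply, smul_eq_mul]

lemma norm_qz_apply_le (u : ℂ) (hu : ‖u‖ < 1) (j : ℕ) : ‖(qz u hu) j‖ ≤ √(1 - ‖u‖ ^ 2) := by
  rw [qz_apply, norm_mul, Complex.norm_real, Real.norm_of_nonneg (Real.sqrt_nonneg _), norm_pow]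
  have h1 : ‖u‖ ^ j ≤ 1 := pow_le_one₀ (norm_nonneg u) hu.le
  have h2 := Real.sqrt_nonneg (1 - ‖u‖ ^ 2)
  nlinarith

section ops

variable {P W : ℕ → (L2 →L[ℂ] L2)}
  (hP : ∀ (n : ℕ) (x : L2) (j : ℕ), (P n x) j = if j ≤ n then x j else 0)
  (hW : ∀ (n : ℕ) (x : L2) (j : ℕ), (W n x) j = if j ≤ n then x (n - j) else 0)
  {T S T' S' : L2 →L[ℂ] L2} {c c' : ℤ → ℂ}
  (h : Pair T S c) (h' : Pair T' S' c') (hcc : ∀ l, c' l = starRingEnd ℂ (c l))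

include hP hW in
lemma inner_W_qz (u u' : ℂ) (hu : ‖u‖ < 1) (hu' : ‖u'‖ < 1) (huu : u' = starRingEnd ℂ u) (n : ℕ) :
    ‖(inner ℂ (W n (qz u hu)) (qz u' hu') : ℂ)‖ = (1 - ‖u‖ ^ 2) * ((n + 1) * ‖u‖ ^ n) := by
  have hn : ‖u'‖ = ‖u‖ := by rw [huu]; exact RCLike.norm_conj u
  have h0 := one_sub_pos u hu
  rw [← PW hP hW, inner_P_left hP]
  have h2 : ∀ j ∈ Finset.range (n + 1), starRingEnd ℂ ((W n (qz u hu)) j) * (qz u' hu') j
      = ((1 - ‖u‖ ^ 2 : ℝ) : ℂ) * u' ^ n := by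
    intro j hj
    have hj' : j ≤ n := by simpa [Nat.lt_succ_iff] using hj
    rw [hW, if_pos hj', qz_apply, qz_apply, hn, map_mul, Complex.conj_ofReal, map_pow, ← huu]
    have h5 : u' ^ n = u' ^ (n - j) * u' ^ j := by
      rw [← pow_add]
      congr 1
      omega
    rw [h5]
    have h6 : ((1 - ‖u‖ ^ 2 : ℝ) : ℂ) = ((√(1 - ‖u‖ ^ 2) : ℝ) : ℂ) * ((√(1 - ‖u‖ ^ 2) : ℝ) : ℂ) := by
      rw [← Complex.ofReal_mul, Real.mul_self_sqrt h0.le]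
    rw [h6]
    ring
  rw [Finset.sum_congr rfl h2, Finset.sum_const, Finset.card_range, nsmul_eq_mul, norm_mul,
    norm_mul, norm_pow, hn, Complex.norm_real, Real.norm_of_nonneg h0.le]
  have h7 : ‖((n + 1 : ℕ) : ℂ)‖ = (n : ℝ) + 1 := by
    rw [Complex.norm_natCast]
    push_cast
    ring
  rw [h7]
  ring

include h in
lemma S_qz (u : ℂ) (hu : ‖u‖ < 1) (α : ℂ)
    (hα : HasSum (fun l : ℕ => starRingEnd ℂ (c l) * u ^ l) α) :
    S (qz u hu) = α • qz u hu := by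
  have key : S (kz u hu) = α • kz u hu := by
    ext j
    rw [← inner_ee, hS' h, inner_sum_form, lp.coeFn_smul, Pi.smul_apply, kz_apply, smul_eq_mul]
    have h2 : ∀ k : ℕ, starRingEnd ℂ ((T (ee j)) k) * (kz u hu) k
        = starRingEnd ℂ (c ((k : ℤ) - (j : ℤ))) * u ^ k := by
      intro k
      rw [h.hT, kz_apply]
    rw [tsum_congr h2]
    apply HasSum.tsum_eq
    rw [← hasSum_nat_add_iff' j]
    have h3 : ∑ i ∈ Finset.range j, starRingEnd ℂ (c ((i : ℤ) - (j : ℤ))) * u ^ i = 0 := by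
      apply Finset.sum_eq_zero
      intro i hi
      rw [h.hc0, map_zero, zero_mul]
      simp only [Finset.mem_range] at hi
      omega
    rw [h3, sub_zero]
    have h4 := hα.mul_right (u ^ j)
    have h6 : (fun n : ℕ => starRingEnd ℂ (c (((n + j : ℕ) : ℤ) - (j : ℤ))) * u ^ (n + j))
        = fun n : ℕ => starRingEnd ℂ (c (n : ℤ)) * u ^ n * u ^ j := by
      funext n
      have h7 : ((n + j : ℕ) : ℤ) - (j : ℤ) = n := by push_cast; ring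
      rw [h7, pow_add, mul_assoc]
    rw [h6]
    exact h4
  rw [qz, map_smul, key, smul_comm]

include h in
lemma norm_T (x : L2) : ‖T x‖ = ‖x‖ := by
  have h3 : ((‖T x‖ ^ 2 : ℝ) : ℂ) = ((‖x‖ ^ 2 : ℝ) : ℂ) := by
    have h4 : (inner ℂ (T x) (T x) : ℂ) = inner ℂ x x := by
      rw [← hS' h, h.hTT]
    rw [inner_self_eq_norm_sq_to_K, inner_self_eq_norm_sq_to_K] at h4
    exact_mod_cast h4
  have h4 : ‖T x‖ ^ 2 = ‖x‖ ^ 2 := by exact_mod_cast h3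
  exact (sq_eq_sq₀ (norm_nonneg _) (norm_nonneg _)).1 h4

include h in
lemma gen (q : L2) (hq : ‖q‖ = 1) (α : ℂ) (a : ℝ) (hα : ‖α‖ ≤ a) (hSq : S q = α • q)
    (w : L2) (hw : ‖w‖ ≤ 1) : ‖(inner ℂ w q : ℂ)‖ - a ≤ ‖KK T S w‖ := by
  have hK : KK T S q = q - α • T q := by rw [KK_apply, hSq, map_smul]
  have h3 : (inner ℂ (KK T S w) q : ℂ) = inner ℂ w q - α * inner ℂ w (T q) := by
    rw [KK_sa h, hK, inner_sub_right, inner_smul_right]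
  have h4 : ‖(inner ℂ (KK T S w) q : ℂ)‖ ≤ ‖KK T S w‖ * ‖q‖ := norm_inner_le_norm _ _
  rw [hq, mul_one, h3] at h4
  have h5 : ‖(inner ℂ w (T q) : ℂ)‖ ≤ ‖w‖ * ‖T q‖ := norm_inner_le_norm _ _
  rw [norm_T h, hq, mul_one] at h5
  have h6 : ‖(inner ℂ w q : ℂ)‖ - ‖α * inner ℂ w (T q)‖
      ≤ ‖(inner ℂ w q : ℂ) - α * inner ℂ w (T q)‖ := norm_sub_norm_le _ _
  rw [norm_mul] at h6
  have h7 : ‖α‖ * ‖(inner ℂ w (T q) : ℂ)‖ ≤ a * 1 := by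
    apply mul_le_mul hα (h5.trans hw) (norm_nonneg _)
    exact (norm_nonneg α).trans hα
  linarith

include hP hW h h' hcc in
/-- lower bound -/
lemma lower (n : ℕ) (q q' : L2) (hq : ‖q‖ = 1) (hq' : ‖q'‖ = 1) (α α' : ℂ) (a : ℝ)
    (hα : ‖α‖ ≤ a) (hα' : ‖α'‖ ≤ a) (hSq : S q = α • q) (hSq' : S' q' = α' • q')
    (γ : ℝ) (hγ : γ ≤ ‖(inner ℂ (W n q) q' : ℂ)‖) (h1 : a ≤ γ) (h2 : a ≤ (γ - a) ^ 2) :
    ((γ - a) ^ 2 - a) ^ 2 ≤ ‖AA P T S n (P n q)‖ := by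
  set v := YY P T S n (P n q) with hv
  have hWP : W n (P n q) = W n q := WP hP hW n q
  have hvn : ‖v‖ ≤ 1 := by
    have := norm_YY_le hP hW h h' hcc n (P n q)
    have h3 := norm_P_le hP n q
    rw [hq] at h3
    linarith
  have hPv : P n v = v := by
    rw [hv, YY_eq hP hW h h' hcc, PW hP hW]
  have hβ : (inner ℂ v q : ℂ) = ((‖KK T' S' (W n q)‖ ^ 2 : ℝ) : ℂ) := by
    rw [hv, YY_eq hP hW h h' hcc, W_sa hP hW, hWP, KK_sq h']
  have hβ1 : (γ - a) ^ 2 ≤ ‖(inner ℂ v q : ℂ)‖ := by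
    rw [hβ, Complex.norm_real, Real.norm_of_nonneg (by positivity)]
    have h3 := gen h' q' hq' α' a hα' hSq' (W n q) ((norm_W_le hP hW n q).trans hq.le)
    have h4 : 0 ≤ γ - a := by linarith
    have h5 : γ - a ≤ ‖KK T' S' (W n q)‖ := by linarith
    gcongr
  have h3 := gen h q hq α a hα hSq v hvn
  have h4 : (inner ℂ (AA P T S n (P n q)) v : ℂ) = ((‖KK T S v‖ ^ 2 : ℝ) : ℂ) := by
    rw [AA_apply, ← hv, XX_eq hP h, P_sa hP, hPv, KK_sq h]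
  have h5 : ‖(inner ℂ (AA P T S n (P n q)) v : ℂ)‖ ≤ ‖AA P T S n (P n q)‖ * ‖v‖ :=
    norm_inner_le_norm _ _
  rw [h4, Complex.norm_real, Real.norm_of_nonneg (by positivity)] at h5
  have h6 : ((γ - a) ^ 2 - a) ^ 2 ≤ ‖KK T S v‖ ^ 2 := by
    have h7 : 0 ≤ (γ - a) ^ 2 - a := by linarith
    have h8 : (γ - a) ^ 2 - a ≤ ‖KK T S v‖ := by linarith
    gcongr
  have h9 : ‖AA P T S n (P n q)‖ * ‖v‖ ≤ ‖AA P T S n (P n q)‖ := by
    have := norm_nonneg (AA P T S n (P n q))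
    nlinarith
  linarith

end ops

end Pool.Agent.Lib.MP_a70d84_an.Ins
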