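import Pool.Agent.Lib.MP_a70d84_an.Ins.Cont
import Pool.Agent.Lib.MP_a70d84_an.Ins.Freq

/-!
# Discontinuous inner functions and the ideal `J`
-/

set_option autoImplicit false
open MeasureTheory Filter Topology AddCircle

namespace Pool.Agent.Lib.MP_a70d84_an.Ins

section ops

variable {P W : ℕ → (L2 →L[ℂ] L2)}
  (hP : ∀ (n : ℕ) (x : L2) (j : ℕ), (P n x) j = if j ≤ n then x j else 0)
  (hW : ∀ (n : ℕ) (x : L2) (j : ℕ), (W n x) j = if j ≤ n then x (n - j) else 0)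
  {T S T' S' : L2 →L[ℂ] L2} {c c' : ℤ → ℂ}
  (h : Pair T S c) (h' : Pair T' S' c') (hcc : ∀ l, c' l = starRingEnd ℂ (c l))

lemma e4_pos : (0 : ℝ) < 16 * Real.exp (-4) := by positivity

include hP hW h h' hcc in
/-- The distance to the ideal. -/
lemma dist_J (Θ : ℂ → ℂ)
    (hΘ : ∀ z : ℂ, ‖z‖ < 1 → HasSum (fun l : ℕ => c l * z ^ l) (Θ z))
    (hz : ∀ r : ℝ, r < 1 → ∀ δ : ℝ, 0 < δ → ∃ z : ℂ, r < ‖z‖ ∧ ‖z‖ < 1 ∧ ‖Θ z‖ < δ)
    (K K' : L2 →L[ℂ] L2) (hK : IsCompactOperator K) (hK' : IsCompactOperator K')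
    (a : ℝ) (ha : a < 16 * Real.exp (-4)) :
    ∃ᶠ n in atTop, a ≤ ‖AA P T S n - P n * K * P n - W n * K' * W n‖ := by
  obtain ⟨N, q, b, hN, hq, hPq, hWq, hb, hlow⟩ := test_vectors hP hW h h' hcc Θ hΘ hz
  have h3 := compact_null K hK (fun m => P (N m) (q m))
    (fun m => (norm_P_le hP _ _).trans (hq m).le) (hPq N)
  have h4 := compact_null K' hK' (fun m => W (N m) (q m))
    (fun m => (norm_W_le hP hW _ _).trans (hq m).le) (hWq N)
  have h5 := ((hb.sub (tendsto_zero_iff_norm_tendsto_zero.1 h3)).sub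
    (tendsto_zero_iff_norm_tendsto_zero.1 h4))
  simp only [sub_zero] at h5
  rw [frequently_atTop]
  intro M
  obtain ⟨m, ⟨hm1, hm2⟩, hm3⟩ := (((h5.eventually (lt_mem_nhds ha)).and hlow).and
    (hN.eventually (eventually_ge_atTop M))).exists
  refine ⟨N m, hm3, ?_⟩
  have h7 : (AA P T S (N m) - P (N m) * K * P (N m) - W (N m) * K' * W (N m)) (P (N m) (q m))
      = AA P T S (N m) (P (N m) (q m)) - P (N m) (K (P (N m) (q m)))
        - W (N m) (K' (W (N m) (q m))) := by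
    have h8 : (AA P T S (N m) - P (N m) * K * P (N m) - W (N m) * K' * W (N m)) (P (N m) (q m))
      = AA P T S (N m) (P (N m) (q m)) - P (N m) (K (P (N m) (P (N m) (q m))))
        - W (N m) (K' (W (N m) (P (N m) (q m)))) := rfl
    rw [h8, PP hP, WP hP hW]
  have h9 := norm_P_le hP (N m) (K (P (N m) (q m)))
  have h10 := norm_W_le hP hW (N m) (K' (W (N m) (q m)))
  have h11 := (AA P T S (N m) - P (N m) * K * P (N m) - W (N m) * K' * W (N m)).le_opNorm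
    (P (N m) (q m))
  have h12 : ‖P (N m) (q m)‖ ≤ 1 := (norm_P_le hP _ _).trans (hq m).le
  have h13 : ‖AA P T S (N m) - P (N m) * K * P (N m) - W (N m) * K' * W (N m)‖
      * ‖P (N m) (q m)‖ ≤ ‖AA P T S (N m) - P (N m) * K * P (N m) - W (N m) * K' * W (N m)‖ := by
    have := norm_nonneg (AA P T S (N m) - P (N m) * K * P (N m) - W (N m) * K' * W (N m))
    nlinarith
  rw [h7] at h11
  have h14 := norm_sub_norm_le (AA P T S (N m) (P (N m) (q m)) - P (N m) (K (P (N m) (q m))))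
    (W (N m) (K' (W (N m) (q m))))
  have h15 := norm_sub_norm_le (AA P T S (N m) (P (N m) (q m))) (P (N m) (K (P (N m) (q m))))
  linarith

include hP hW h h' hcc in
/-- The sequence is not in the ideal. -/
lemma not_InJ (Θ : ℂ → ℂ)
    (hΘ : ∀ z : ℂ, ‖z‖ < 1 → HasSum (fun l : ℕ => c l * z ^ l) (Θ z))
    (hz : ∀ r : ℝ, r < 1 → ∀ δ : ℝ, 0 < δ → ∃ z : ℂ, r < ‖z‖ ∧ ‖z‖ < 1 ∧ ‖Θ z‖ < δ) :
    ¬ InJ P W (AA P T S) := by
  rintro ⟨K, K', hK, hK', C, -, hC, hA⟩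
  have e1 := e4_pos
  have h1 := dist_J hP hW h h' hcc Θ hΘ hz K K' hK hK' (8 * Real.exp (-4)) (by linarith)
  have h2 : ∀ᶠ n in atTop, ‖C n‖ < 8 * Real.exp (-4) :=
    hC.eventually (gt_mem_nhds (by linarith))
  obtain ⟨n, hn1, hn2⟩ := (h1.and_eventually h2).exists
  rw [hA n] at hn1
  have h3 : P n * K * P n + W n * K' * W n + C n - P n * K * P n - W n * K' * W n = C n := by
    abel
  rw [h3] at hn1
  linarith

end ops

end Pool.Agent.Lib.MP_a70d84_an.Ins
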