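import Pool.Agent.Lib.MP_a70d84_an.Ins.Sec

/-!
# The sequence attached to an analytic Toeplitz isometry

`T` is the Toeplitz operator of an inner function, `S` its adjoint, `T'` the Toeplitz operator with
the conjugated coefficients and `S'` the adjoint of `T'`.
-/

set_option autoImplicit false
open Filter Topology

namespace Pool.Agent.Lib.MP_a70d84_an.Ins

/-- An isometric lower triangular Toeplitz operator `T` with coefficients `c` and adjoint `S`. -/
structure Pair (T S : L2 →L[ℂ] L2) (c : ℤ → ℂ) : Prop where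
  hT : ∀ j k : ℕ, (T (ee k)) j = c ((j : ℤ) - (k : ℤ))
  hc0 : ∀ l : ℤ, l < 0 → c l = 0
  hS : ∀ x y : L2, inner ℂ (S x) y = inner ℂ x (T y)
  hTT : ∀ x : L2, S (T x) = x

section ops

variable {P W : ℕ → (L2 →L[ℂ] L2)}
  (hP : ∀ (n : ℕ) (x : L2) (j : ℕ), (P n x) j = if j ≤ n then x j else 0)
  (hW : ∀ (n : ℕ) (x : L2) (j : ℕ), (W n x) j = if j ≤ n then x (n - j) else 0)
  {T S T' S' : L2 →L[ℂ] L2} {c c' : ℤ → ℂ}
  (h : Pair T S c) (h' : Pair T' S' c') (hcc : ∀ l, c' l = starRingEnd ℂ (c l))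

include h in
lemma hS' (x y : L2) : inner ℂ x (S y) = inner ℂ (T x) y := by
  rw [← inner_conj_symm, h.hS, inner_conj_symm]

include h in
lemma adj_ee (j k : ℕ) : (S (ee k)) j = starRingEnd ℂ (c ((k : ℤ) - (j : ℤ))) := by
  rw [← inner_ee, hS' h, lp.inner_single_right]
  rw [h.hT]
  simp

include hP h in
lemma P_adj_ee (n j : ℕ) (hj : j ≤ n) : P n (S (ee j)) = S (ee j) := by
  ext k
  rw [hP, adj_ee h]
  split_ifs with h1
  · rfl
  · rw [h.hc0]
    · simp
    · omega

include hP h in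
lemma PTP (n : ℕ) (x : L2) : P n (T (P n x)) = P n (T x) := by
  ext j
  rw [hP, hP]
  split_ifs with h1
  · rw [← inner_ee, ← inner_ee, ← h.hS, ← h.hS, ← P_sa hP, P_adj_ee hP h n j h1]
  · rfl

include hP hW h h' hcc in
lemma WTW (n : ℕ) (x : L2) : W n (T (W n x)) = P n (S' (P n x)) := by
  ext j
  rw [hP, hW]
  split_ifs with h1
  · rw [P_eq_sum hP n x, ← PW hP hW n x, P_eq_sum hP n (W n x), map_sum, map_sum, lp.coeFn_sum,
      lp.coeFn_sum, Finset.sum_apply, Finset.sum_apply, ← Finset.sum_range_reflect]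
    apply Finset.sum_congr rfl
    intro k hk
    have hk' : k ≤ n := by simpa [Nat.lt_succ_iff] using hk
    have h3 : n + 1 - 1 - k = n - k := by omega
    have h4 : n - (n - k) = k := by omega
    rw [map_smul, map_smul, lp.coeFn_smul, lp.coeFn_smul, Pi.smul_apply, Pi.smul_apply, h3,
      h.hT, adj_ee h', hcc, hW, if_pos (by omega), h4, Complex.conj_conj]
    congr 2
    omega
  · rfl

include hP hW h h' hcc in
lemma WSW (n : ℕ) (x : L2) : W n (S (W n x)) = P n (T' (P n x)) := by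
  apply ext_inner_right ℂ
  intro y
  rw [W_sa hP hW, h.hS, W_sa hP hW, WTW hP hW h h' hcc, ← P_sa hP, hS' h', ← P_sa hP]

/-- The projection onto the model space. -/
noncomputable def KK (T S : L2 →L[ℂ] L2) : L2 →L[ℂ] L2 := 1 - T * S

lemma KK_apply (x : L2) : KK T S x = x - T (S x) := rfl

include h in
lemma KK_sa (x y : L2) : inner ℂ (KK T S x) y = inner ℂ x (KK T S y) := by
  rw [KK_apply, KK_apply, inner_sub_left, inner_sub_right, ← hS' h, ← h.hS]

include h in
lemma KK_idem (x : L2) : KK T S (KK T S x) = KK T S x := by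
  rw [KK_apply, KK_apply, map_sub, map_sub, h.hTT]
  simp

include h in
lemma norm_KK_le (x : L2) : ‖KK T S x‖ ≤ ‖x‖ := by
  apply norm_le_of_inner
  rw [KK_sa h, KK_idem h]

include h in
lemma KK_sq (w : L2) : (inner ℂ (KK T S w) w : ℂ) = ((‖KK T S w‖ ^ 2 : ℝ) : ℂ) := by
  have h1 : (inner ℂ (KK T S w) w : ℂ) = inner ℂ (KK T S w) (KK T S w) := by
    rw [← KK_sa h, KK_idem h]
  rw [h1, inner_self_eq_norm_sq_to_K]
  norm_cast

/-- first factor -/
noncomputable def XX (P : ℕ → (L2 →L[ℂ] L2)) (T S : L2 →L[ℂ] L2) (n : ℕ) : L2 →L[ℂ] L2 :=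
  P n - (P n * T * P n) * (P n * S * P n)

/-- second factor -/
noncomputable def YY (P : ℕ → (L2 →L[ℂ] L2)) (T S : L2 →L[ℂ] L2) (n : ℕ) : L2 →L[ℂ] L2 :=
  P n - (P n * S * P n) * (P n * T * P n)

lemma AA_eq (n : ℕ) : AA P T S n = XX P T S n * YY P T S n := rfl

lemma AA_apply (n : ℕ) (x : L2) : AA P T S n x = XX P T S n (YY P T S n x) := rfl

lemma XX_apply (n : ℕ) (x : L2) : XX P T S n x = P n x - P n (T (P n (P n (S (P n x))))) := rfl

lemma YY_apply (n : ℕ) (x : L2) : YY P T S n x = P n x - P n (S (P n (P n (T (P n x))))) := rfl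

include hP h in
lemma XX_eq (n : ℕ) (x : L2) : XX P T S n x = P n (KK T S (P n x)) := by
  rw [XX_apply, PP hP, PTP hP h, KK_apply, map_sub, PP hP]

include hP hW h h' hcc in
lemma YY_eq (n : ℕ) (x : L2) : YY P T S n x = W n (KK T' S' (W n x)) := by
  have hcc' : ∀ l, c l = starRingEnd ℂ (c' l) := by
    intro l
    rw [hcc, Complex.conj_conj]
  have h1 : W n (XX P T' S' n (W n x)) = W n (KK T' S' (W n x)) := by
    rw [XX_eq hP h', WP hP hW, PW hP hW]
  rw [← h1, XX_apply, YY_apply, map_sub, PW hP hW, WW hP hW, WP hP hW, PP hP, PP hP]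
  congr 1
  have h2 : P n (S' (W n x)) = W n (P n (T (P n x))) := by
    rw [← WSW hP hW h' h hcc', WW hP hW]
  rw [h2]
  have h3 := WTW hP hW h' h hcc' n (P n (T (P n x)))
  rw [PP hP] at h3
  rw [h3]

include hP h in
lemma norm_XX_le (n : ℕ) (x : L2) : ‖XX P T S n x‖ ≤ ‖x‖ := by
  rw [XX_eq hP h]
  exact (norm_P_le hP _ _).trans ((norm_KK_le h _).trans (norm_P_le hP _ _))

include hP hW h h' hcc in
lemma norm_YY_le (n : ℕ) (x : L2) : ‖YY P T S n x‖ ≤ ‖x‖ := by
  rw [YY_eq hP hW h h' hcc]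
  exact (norm_W_le hP hW _ _).trans ((norm_KK_le h' _).trans (norm_W_le hP hW _ _))

include hP h in
lemma XX_sa (n : ℕ) (x y : L2) : inner ℂ (XX P T S n x) y = inner ℂ x (XX P T S n y) := by
  rw [XX_eq hP h, XX_eq hP h, P_sa hP, KK_sa h, P_sa hP]

include hP hW h h' hcc in
lemma YY_sa (n : ℕ) (x y : L2) : inner ℂ (YY P T S n x) y = inner ℂ x (YY P T S n y) := by
  rw [YY_eq hP hW h h' hcc, YY_eq hP hW h h' hcc, W_sa hP hW, KK_sa h', W_sa hP hW]

include hP hW h h' hcc in
lemma AA_adj (n : ℕ) (x : L2) :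
    (ContinuousLinearMap.adjoint (AA P T S n)) x = YY P T S n (XX P T S n x) := by
  apply ext_inner_right ℂ
  intro y
  rw [ContinuousLinearMap.adjoint_inner_left, AA_apply, ← XX_sa hP h, ← YY_sa hP hW h h' hcc]

include hP hW h h' hcc in
lemma WXW (n : ℕ) (x : L2) : W n (XX P T S n (W n x)) = YY P T' S' n x := by
  have hcc' : ∀ l, c l = starRingEnd ℂ (c' l) := by
    intro l
    rw [hcc, Complex.conj_conj]
  rw [YY_eq hP hW h' h hcc', XX_eq hP h, PW hP hW, WP hP hW]

include hP hW h h' hcc in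
lemma WYW (n : ℕ) (x : L2) : W n (YY P T S n (W n x)) = XX P T' S' n x := by
  rw [YY_eq hP hW h h' hcc, XX_eq hP h', WW hP hW, WW hP hW]

include hP hW h h' hcc in
lemma WAW (n : ℕ) (x : L2) :
    W n (AA P T S n (W n x)) = YY P T' S' n (XX P T' S' n x) := by
  rw [AA_apply, ← WYW hP hW h h' hcc n x, ← WXW hP hW h h' hcc n, WW hP hW,
    YY_eq hP hW h h' hcc, PW hP hW]

include hP in
lemma tendsto_P_comp {u : ℕ → L2} {v : L2} (hu : Tendsto u atTop (𝓝 v)) :
    Tendsto (fun n => P n (u n)) atTop (𝓝 v) := by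
  rw [tendsto_iff_norm_sub_tendsto_zero] at hu ⊢
  have h2 := tendsto_iff_norm_sub_tendsto_zero.1 (tendsto_P hP v)
  have h3 := hu.add h2
  rw [add_zero] at h3
  refine squeeze_zero (fun _ => norm_nonneg _) ?_ h3
  intro n
  have h4 : P n (u n) - v = P n (u n - v) + (P n v - v) := by
    rw [map_sub]; abel
  rw [h4]
  exact (norm_add_le _ _).trans (by gcongr; exact norm_P_le hP _ _)

include hP h in
lemma tendsto_YY (x : L2) : Tendsto (fun n => YY P T S n x) atTop (𝓝 0) := by
  have h1 := tendsto_P hP x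
  have h2 : Tendsto (fun n => P n (S (P n (P n (T (P n x)))))) atTop (𝓝 (S (T x))) := by
    apply tendsto_P_comp hP
    apply (S.continuous.tendsto _).comp
    apply tendsto_P_comp hP
    apply tendsto_P_comp hP
    exact (T.continuous.tendsto _).comp h1
  have h3 := h1.sub h2
  rw [h.hTT, sub_self] at h3
  exact h3

include hP h in
lemma tendsto_XY (x : L2) : Tendsto (fun n => XX P T S n (YY P T S n x)) atTop (𝓝 0) := by
  have h1 := tendsto_zero_iff_norm_tendsto_zero.1 (tendsto_YY hP h x)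
  apply tendsto_zero_iff_norm_tendsto_zero.2
  refine squeeze_zero (fun _ => norm_nonneg _) ?_ h1
  intro n
  exact norm_XX_le hP h n _

include hP hW h h' hcc in
lemma tendsto_YX (x : L2) : Tendsto (fun n => YY P T S n (XX P T S n x)) atTop (𝓝 0) := by
  have h1 : Tendsto (fun n => XX P T S n x) atTop (𝓝 (KK T S x)) := by
    have h2 : (fun n => XX P T S n x) = fun n => P n (KK T S (P n x)) := by
      funext n
      exact XX_eq hP h n x
    rw [h2]
    apply tendsto_P_comp hP
    exact ((KK T S).continuous.tendsto _).comp (tendsto_P hP x)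
  have h3 := tendsto_iff_norm_sub_tendsto_zero.1 h1
  have h4 := tendsto_zero_iff_norm_tendsto_zero.1 (tendsto_YY hP h (KK T S x))
  have h5 := h3.add h4
  rw [add_zero] at h5
  apply tendsto_zero_iff_norm_tendsto_zero.2
  refine squeeze_zero (fun _ => norm_nonneg _) ?_ h5
  intro n
  have h6 : YY P T S n (XX P T S n x) = YY P T S n (XX P T S n x - KK T S x)
      + YY P T S n (KK T S x) := by
    rw [map_sub]; abel
  rw [h6]
  exact (norm_add_le _ _).trans (by gcongr; exact norm_YY_le hP hW h h' hcc _ _)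

include hP hW h h' hcc in
/-- The four strong limits. -/
lemma four_limits :
    StrongLim (AA P T S) 0 ∧
    StrongLim (fun n => ContinuousLinearMap.adjoint (AA P T S n)) 0 ∧
    StrongLim (fun n => W n * AA P T S n * W n) 0 ∧
    StrongLim (fun n => ContinuousLinearMap.adjoint (W n * AA P T S n * W n)) 0 := by
  have hcc' : ∀ l, c l = starRingEnd ℂ (c' l) := by
    intro l
    rw [hcc, Complex.conj_conj]
  refine ⟨fun x => tendsto_XY hP h x, fun x => ?_, fun x => ?_, fun x => ?_⟩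
  · refine (tendsto_YX hP hW h h' hcc x).congr fun n => ?_
    exact (AA_adj hP hW h h' hcc n x).symm
  · refine (tendsto_YX hP hW h' h hcc' x).congr fun n => ?_
    exact (WAW hP hW h h' hcc n x).symm
  · refine (tendsto_XY hP h' x).congr fun n => ?_
    apply ext_inner_right ℂ
    intro y
    have h1 : (W n * AA P T S n * W n) y = W n (AA P T S n (W n y)) := rfl
    rw [ContinuousLinearMap.adjoint_inner_left, h1, WAW hP hW h h' hcc, XX_sa hP h',
      YY_sa hP hW h' h hcc']

end ops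

end Pool.Agent.Lib.MP_a70d84_an.Ins
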