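import Pool.Agent.Lib.MP_a70d84_an.Ins.Defs

/-!
# Sections and flips on the sequence space

Elementary facts on the projections `P n` onto the first `n + 1` coordinates and on the flips `W n`.
-/

set_option autoImplicit false
open Filter Topology

namespace Pool.Agent.Lib.MP_a70d84_an.Ins

/-- unit vectors -/
noncomputable abbrev ee (k : ℕ) : L2 := lp.single 2 k (1 : ℂ)

lemma ee_apply (k j : ℕ) : (ee k) j = if j = k then 1 else 0 := by
  rw [lp.single_apply]
  by_cases h : j = k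
  · subst h; simp
  · simp [h]

lemma inner_ee (j : ℕ) (x : L2) : inner ℂ (ee j) x = x j := by
  rw [lp.inner_single_left]
  simp

section flip

variable {P W : ℕ → (L2 →L[ℂ] L2)}
  (hP : ∀ (n : ℕ) (x : L2) (j : ℕ), (P n x) j = if j ≤ n then x j else 0)
  (hW : ∀ (n : ℕ) (x : L2) (j : ℕ), (W n x) j = if j ≤ n then x (n - j) else 0)

include hP in
lemma P_eq_sum (n : ℕ) (x : L2) : P n x = ∑ k ∈ Finset.range (n + 1), x k • ee k := by
  ext j
  rw [hP, lp.coeFn_sum, Finset.sum_apply]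
  simp only [lp.coeFn_smul, Pi.smul_apply, ee_apply, smul_eq_mul, mul_ite, mul_one, mul_zero]
  rw [Finset.sum_ite_eq]
  simp

include hP in
lemma PP (n : ℕ) (x : L2) : P n (P n x) = P n x := by
  ext j
  rw [hP, hP]
  split_ifs <;> rfl

include hP hW in
lemma PW (n : ℕ) (x : L2) : P n (W n x) = W n x := by
  ext j
  rw [hP, hW]
  split_ifs <;> rfl

include hP hW in
lemma WP (n : ℕ) (x : L2) : W n (P n x) = W n x := by
  ext j
  rw [hW, hW, hP]
  split_ifs with h1 h2
  · rfl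
  · omega
  · rfl

include hP hW in
lemma WW (n : ℕ) (x : L2) : W n (W n x) = P n x := by
  ext j
  rw [hP, hW, hW]
  split_ifs with h1 h2
  · have h3 : n - (n - j) = j := by omega
    rw [h3]
  · omega
  · rfl

lemma inner_sum_form (x y : L2) : inner ℂ x y = ∑' j, (starRingEnd ℂ (x j)) * y j := by
  rw [lp.inner_eq_tsum]
  congr 1
  ext j
  simp [mul_comm]

include hP in
lemma inner_P_left (n : ℕ) (x y : L2) : inner ℂ (P n x) y
    = ∑ j ∈ Finset.range (n + 1), (starRingEnd ℂ (x j)) * y j := by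
  rw [inner_sum_form, tsum_eq_sum (s := Finset.range (n + 1))]
  · apply Finset.sum_congr rfl
    intro j hj
    rw [hP, if_pos (by simpa [Nat.lt_succ_iff] using hj)]
  · intro j hj
    rw [hP, if_neg (by simpa [Nat.lt_succ_iff] using hj)]
    simp

include hP in
lemma inner_P_right (n : ℕ) (x y : L2) : inner ℂ x (P n y)
    = ∑ j ∈ Finset.range (n + 1), (starRingEnd ℂ (x j)) * y j := by
  rw [inner_sum_form, tsum_eq_sum (s := Finset.range (n + 1))]
  · apply Finset.sum_congr rfl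
    intro j hj
    rw [hP, if_pos (by simpa [Nat.lt_succ_iff] using hj)]
  · intro j hj
    rw [hP, if_neg (by simpa [Nat.lt_succ_iff] using hj)]
    simp

include hP in
lemma P_sa (n : ℕ) (x y : L2) : inner ℂ (P n x) y = inner ℂ x (P n y) := by
  rw [inner_P_left hP, inner_P_right hP]

include hP hW in
lemma W_sa (n : ℕ) (x y : L2) : inner ℂ (W n x) y = inner ℂ x (W n y) := by
  rw [← PW hP hW n x, ← PW hP hW n y, inner_P_left hP, inner_P_right hP]
  rw [← Finset.sum_range_reflect]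
  apply Finset.sum_congr rfl
  intro j hj
  have hj' : j ≤ n := by simpa [Nat.lt_succ_iff] using hj
  have h3 : n + 1 - 1 - j = n - j := by omega
  have h4 : n - (n - j) = j := by omega
  rw [hW, hW, h3, if_pos (by omega), if_pos hj', h4]

lemma norm_le_of_inner (x y : L2) (h : inner ℂ x x = inner ℂ y x) : ‖x‖ ≤ ‖y‖ := by
  by_cases hx : ‖x‖ = 0
  · rw [hx]; exact norm_nonneg _
  · have h1 : ‖x‖ ^ 2 = ‖(inner ℂ x x : ℂ)‖ := by
      rw [inner_self_eq_norm_sq_to_K]
      simp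
    have h2 : ‖(inner ℂ y x : ℂ)‖ ≤ ‖y‖ * ‖x‖ := norm_inner_le_norm _ _
    rw [← h, ← h1] at h2
    have h3 : 0 < ‖x‖ := lt_of_le_of_ne (norm_nonneg _) (Ne.symm hx)
    nlinarith

include hP in
lemma norm_P_le (n : ℕ) (x : L2) : ‖P n x‖ ≤ ‖x‖ := by
  apply norm_le_of_inner
  rw [P_sa hP, PP hP]

include hP hW in
lemma norm_W_le (n : ℕ) (x : L2) : ‖W n x‖ ≤ ‖x‖ := by
  have h1 : ‖W n x‖ ^ 2 = ‖(inner ℂ (W n x) (W n x) : ℂ)‖ := by
    rw [inner_self_eq_norm_sq_to_K]
    simp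
  rw [W_sa hP hW, WW hP hW] at h1
  have h2 : ‖(inner ℂ x (P n x) : ℂ)‖ ≤ ‖x‖ * ‖P n x‖ := norm_inner_le_norm _ _
  have h3 := norm_P_le hP n x
  have h4 : ‖W n x‖ ^ 2 ≤ ‖x‖ ^ 2 := by
    rw [h1]
    nlinarith [norm_nonneg x]
  exact le_of_sq_le_sq h4 (norm_nonneg _)

include hP in
lemma tendsto_P (x : L2) : Tendsto (fun n => P n x) atTop (𝓝 x) := by
  have h := (lp.hasSum_single (p := 2) (by norm_num) x).tendsto_sum_nat
  have h2 := h.comp (tendsto_add_atTop_nat 1)
  refine h2.congr ?_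
  intro n
  rw [P_eq_sum hP]
  simp only [Function.comp]
  apply Finset.sum_congr rfl
  intro k _
  rw [← lp.single_smul]
  simp

/-- weak null sequences -/
lemma weak_null (u : ℕ → L2) (hu : ∀ n, ‖u n‖ ≤ 1)
    (hc : ∀ j, Tendsto (fun n => (u n) j) atTop (𝓝 0)) (y : L2) :
    Tendsto (fun n => (inner ℂ y (u n) : ℂ)) atTop (𝓝 0) := by
  rw [Metric.tendsto_atTop]
  intro ε hε
  have h := (lp.hasSum_single (p := 2) (by norm_num) y).tendsto_sum_nat
  rw [Metric.tendsto_atTop] at h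
  obtain ⟨m, hm⟩ := h (ε / 2) (by positivity)
  have hm := hm m le_rfl
  set z := ∑ k ∈ Finset.range m, lp.single 2 k (y k) with hz
  have h2 : Tendsto (fun n => (inner ℂ z (u n) : ℂ)) atTop (𝓝 0) := by
    have h3 : (fun n => (inner ℂ z (u n) : ℂ)) =
        fun n => ∑ k ∈ Finset.range m, (starRingEnd ℂ (y k)) * (u n) k := by
      funext n
      rw [hz, sum_inner]
      apply Finset.sum_congr rfl
      intro k _
      rw [lp.inner_single_left]
      simp [mul_comm]
    rw [h3]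
    have h4 : (0 : ℂ) = ∑ k ∈ Finset.range m, (starRingEnd ℂ (y k)) * 0 := by simp
    rw [h4]
    exact tendsto_finsetSum _ fun k _ => (hc k).const_mul _
  rw [Metric.tendsto_atTop] at h2
  obtain ⟨N, hN⟩ := h2 (ε / 2) (by positivity)
  refine ⟨N, fun n hn => ?_⟩
  have h5 := hN n hn
  rw [dist_zero_right] at h5 ⊢
  have h6 : (inner ℂ y (u n) : ℂ) = inner ℂ z (u n) + inner ℂ (y - z) (u n) := by
    rw [← inner_add_left]
    congr 1
    abel
  rw [h6]
  have h7 : ‖(inner ℂ (y - z) (u n) : ℂ)‖ < ε / 2 := by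
    calc _ ≤ ‖y - z‖ * ‖u n‖ := norm_inner_le_norm _ _
      _ ≤ ‖y - z‖ * 1 := by gcongr; exact hu n
      _ = dist z y := by rw [mul_one, dist_comm, dist_eq_norm]
      _ < ε / 2 := hm
  calc _ ≤ ‖(inner ℂ z (u n) : ℂ)‖ + ‖(inner ℂ (y - z) (u n) : ℂ)‖ := norm_add_le _ _
    _ < ε := by linarith

lemma compact_null (K : L2 →L[ℂ] L2) (hK : IsCompactOperator K) (u : ℕ → L2) (hu : ∀ n, ‖u n‖ ≤ 1)
    (hc : ∀ j, Tendsto (fun n => (u n) j) atTop (𝓝 0)) :
    Tendsto (fun n => K (u n)) atTop (𝓝 0) := by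
  obtain ⟨S, hS, hS'⟩ := IsCompactOperator.image_closedBall_subset_compact
    (f := (K : L2 →ₗ[ℂ] L2)) hK 1
  have hmem : ∀ n, K (u n) ∈ S := fun n => hS' ⟨u n, by simpa using hu n, rfl⟩
  apply tendsto_of_subseq_tendsto
  intro ns hns
  obtain ⟨s, hs, ms, hms, hlim⟩ := hS.tendsto_subseq (fun n => hmem (ns n))
  refine ⟨ms, ?_⟩
  have hs0 : s = 0 := by
    ext j
    have h1 : Tendsto (fun n => (inner ℂ (ee j) (K (u (ns (ms n)))) : ℂ)) atTop
        (𝓝 (inner ℂ (ee j) s)) := by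
      exact (tendsto_const_nhds).inner hlim
    have h2 : Tendsto (fun n => (inner ℂ (ee j) (K (u (ns (ms n)))) : ℂ)) atTop (𝓝 0) := by
      have h3 := weak_null u hu hc ((ContinuousLinearMap.adjoint K) (ee j))
      have h4 := (h3.comp hns).comp hms.tendsto_atTop
      refine h4.congr ?_
      intro n
      simp only [Function.comp]
      rw [ContinuousLinearMap.adjoint_inner_left]
    rw [← inner_ee, tendsto_nhds_unique h1 h2]
    rfl
  rw [hs0] at hlim
  exact hlim

end flip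

end Pool.Agent.Lib.MP_a70d84_an.Ins
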