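import Pool.Agent.Lib.MP_a70d84_an.Ins.Low

/-!
# The Toeplitz operator of an inner function
-/

set_option autoImplicit false
open MeasureTheory Filter Topology AddCircle

namespace Pool.Agent.Lib.MP_a70d84_an.Ins

lemma vol_haar : (volume : Measure (AddCircle (1 : ℝ))) = haarAddCircle := by
  rw [volume_eq_smul_haarAddCircle]
  simp

lemma integral_fourier' (k : ℤ) :
    ∫ t : AddCircle (1 : ℝ), fourier k t ∂haarAddCircle = if k = 0 then 1 else 0 := by
  have h := congrFun (fourierCoeff_fourier (T := 1) k) 0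
  rw [fourierCoeff] at h
  simp only [neg_zero, fourier_zero, one_smul] at h
  rw [h, Pi.single_apply]
  simp [eq_comm]

lemma norm_fourier_apply (k : ℤ) (t : AddCircle (1 : ℝ)) : ‖(fourier k t : ℂ)‖ = 1 := by
  rw [fourier_apply, Circle.norm_coe]

lemma coeff_conj (f : AddCircle (1 : ℝ) → ℂ) (m : ℤ) :
    fourierCoeff (fun t => starRingEnd ℂ (f t)) m = starRingEnd ℂ (fourierCoeff f (-m)) := by
  rw [fourierCoeff, fourierCoeff, ← integral_conj]
  congr 1
  funext t
  rw [smul_eq_mul, smul_eq_mul, map_mul, ← fourier_neg, neg_neg]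

lemma coeff_neg (f : AddCircle (1 : ℝ) → ℂ) (m : ℤ) :
    fourierCoeff (fun t => f (-t)) m = fourierCoeff f (-m) := by
  rw [fourierCoeff, fourierCoeff, ← integral_neg_eq_self]
  congr 1
  funext t
  rw [neg_neg, neg_neg]
  congr 1
  rw [fourier_apply, fourier_apply]
  simp

section inner

variable (θ : AddCircle (1 : ℝ) → ℂ)
  (hm : AEStronglyMeasurable θ (haarAddCircle (T := (1 : ℝ))))
  (h1 : ∀ᵐ t ∂(haarAddCircle (T := (1 : ℝ))), ‖θ t‖ = 1)
  (h0 : ∀ k : ℤ, k < 0 → fourierCoeff θ k = 0)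

/-- shifted functions -/
noncomputable def fk (k : ℤ) (t : AddCircle (1 : ℝ)) : ℂ := fourier k t * θ t

include hm h1 in
lemma memLp_fk (k : ℤ) : MemLp (fk θ k) 2 (haarAddCircle (T := (1 : ℝ))) := by
  apply MemLp.of_bound _ 1
  · filter_upwards [h1] with t ht
    rw [fk, norm_mul, norm_fourier_apply, ht, one_mul]
  · exact (map_continuous (fourier k)).aestronglyMeasurable.mul hm

/-- classes of the shifted functions -/
noncomputable def Fk (k : ℤ) : Lp ℂ 2 (haarAddCircle (T := (1 : ℝ))) := (memLp_fk θ hm h1 k).toLp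

lemma coeff_fk (k m : ℤ) : fourierCoeff (fk θ k) m = fourierCoeff θ (m - k) := by
  rw [fourierCoeff, fourierCoeff]
  congr 1
  funext t
  rw [fk, smul_eq_mul, smul_eq_mul, ← mul_assoc, ← fourier_add]
  congr 3
  ring

lemma repr_Fk (k m : ℤ) : fourierBasis.repr (Fk θ hm h1 k) m = fourierCoeff θ (m - k) := by
  rw [fourierBasis_repr, Fk, fourierCoeff_congr_ae (MemLp.coeFn_toLp (memLp_fk θ hm h1 k)), coeff_fk]

lemma inner_Fk (k l : ℤ) : inner ℂ (Fk θ hm h1 k) (Fk θ hm h1 l) = if k = l then (1 : ℂ) else 0 := by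
  rw [L2.inner_def]
  have h2 : ∫ t, inner ℂ (Fk θ hm h1 k t) (Fk θ hm h1 l t) ∂haarAddCircle
      = ∫ t, (fourier (l - k) t : ℂ) ∂(haarAddCircle (T := (1 : ℝ))) := by
    apply integral_congr_ae
    filter_upwards [MemLp.coeFn_toLp (memLp_fk θ hm h1 k), MemLp.coeFn_toLp (memLp_fk θ hm h1 l), h1]
      with t h2 h3 ht
    rw [Fk, Fk, h2, h3, fk, fk]
    have h4 : starRingEnd ℂ (θ t) * θ t = 1 := by
      rw [mul_comm, Complex.mul_conj, Complex.normSq_eq_norm_sq, ht]
      simp
    have h5 : (fourier (l - k) t : ℂ) = starRingEnd ℂ (fourier k t) * fourier l t := by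
      rw [← fourier_neg, ← fourier_add]
      congr 2
      ring
    rw [h5]
    simp only [RCLike.inner_apply, map_mul]
    linear_combination (starRingEnd ℂ (fourier k t) * fourier l t) * h4
  rw [h2, integral_fourier']
  simp only [sub_eq_zero, eq_comm]

include hm h1 in
lemma mem_col (k : ℕ) : Memℓp (fun j : ℕ => fourierCoeff θ ((j : ℤ) - (k : ℤ))) 2 := by
  have h := lp.memℓp (fourierBasis.repr (Fk θ hm h1 k))
  rw [memℓp_gen_iff (by norm_num)] at h ⊢
  have h2 := h.comp_injective (Nat.cast_injective (R := ℤ))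
  refine h2.congr ?_
  intro j
  simp only [Function.comp]
  rw [repr_Fk]

/-- columns -/
noncomputable def col (k : ℕ) : L2 :=
  ⟨fun j : ℕ => fourierCoeff θ ((j : ℤ) - (k : ℤ)), mem_col θ hm h1 k⟩

lemma col_apply (k j : ℕ) : (col θ hm h1 k) j = fourierCoeff θ ((j : ℤ) - (k : ℤ)) := rfl

include h0 in
lemma orth_col : Orthonormal ℂ (col θ hm h1) := by
  rw [orthonormal_iff_ite]
  intro k l
  have h2 : inner ℂ (fourierBasis.repr (Fk θ hm h1 k)) (fourierBasis.repr (Fk θ hm h1 l))
      = inner ℂ (Fk θ hm h1 k) (Fk θ hm h1 l) := LinearIsometryEquiv.inner_map_map _ _ _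
  rw [inner_Fk, lp.inner_eq_tsum] at h2
  rw [inner_sum_form]
  have h3 : (if k = l then (1 : ℂ) else 0) = if (k : ℤ) = (l : ℤ) then (1 : ℂ) else 0 := by
    simp
  rw [h3, ← h2]
  rw [← (Nat.cast_injective (R := ℤ)).tsum_eq]
  · congr 1
    funext j
    rw [repr_Fk, repr_Fk, col_apply, col_apply]
    simp [mul_comm]
  · intro m hm'
    by_contra hcon
    apply hm'
    have hneg : m < 0 := by
      by_contra hge
      apply hcon
      exact ⟨m.toNat, by simp; omega⟩
    simp only []
    rw [repr_Fk, repr_Fk, h0 (m - l) (by omega)]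
    simp

include h0 hm h1 in
/-- The Toeplitz operator of an inner function is an isometry. -/
lemma exists_pair : ∃ T : L2 →L[ℂ] L2,
    Pair T (ContinuousLinearMap.adjoint T) (fun m => fourierCoeff θ m) := by
  have ho := orth_col θ hm h1 h0
  set T : L2 →L[ℂ] L2 := (ho.orthogonalFamily.linearIsometry).toContinuousLinearMap with hTd
  have hTin : ∀ x y : L2, inner ℂ (T x) (T y) = inner ℂ x y := fun x y =>
    LinearIsometry.inner_map_map _ _ _
  refine ⟨T, ⟨fun j k => ?_, h0, fun x y => ContinuousLinearMap.adjoint_inner_left _ _ _,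
    fun x => ?_⟩⟩
  · have h : T (ee k) = col θ hm h1 k := by
      have h2 := ho.orthogonalFamily.linearIsometry_apply_single (i := k) (1 : ℂ)
      simp only [LinearIsometry.toSpanSingleton_apply, one_smul] at h2
      exact h2
    rw [h, col_apply]
  · apply ext_inner_right ℂ
    intro y
    rw [ContinuousLinearMap.adjoint_inner_left, hTin]

include h0 hm h1 in
/-- The Toeplitz operator with the conjugated coefficients. -/
lemma exists_pair' : ∃ T : L2 →L[ℂ] L2,
    Pair T (ContinuousLinearMap.adjoint T) (fun m => starRingEnd ℂ (fourierCoeff θ m)) := by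
  have hc : ∀ m, fourierCoeff (fun t => starRingEnd ℂ (θ (-t))) m
      = starRingEnd ℂ (fourierCoeff θ m) := by
    intro m
    rw [coeff_conj (fun t => θ (-t)), coeff_neg, neg_neg]
  have hmp : MeasurePreserving (fun t : AddCircle (1 : ℝ) => -t) haarAddCircle haarAddCircle :=
    Measure.measurePreserving_neg _
  have hm2 : AEStronglyMeasurable (fun t => starRingEnd ℂ (θ (-t)))
      (haarAddCircle (T := (1 : ℝ))) := by
    exact RCLike.continuous_conj.comp_aestronglyMeasurable (hm.comp_measurePreserving hmp)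
  have h12 : ∀ᵐ t ∂(haarAddCircle (T := (1 : ℝ))), ‖starRingEnd ℂ (θ (-t))‖ = 1 := by
    filter_upwards [hmp.quasiMeasurePreserving.ae h1] with t ht
    rw [RCLike.norm_conj]
    exact ht
  obtain ⟨T, hT⟩ := exists_pair (fun t => starRingEnd ℂ (θ (-t))) hm2 h12 (fun k hk => by
    rw [hc, h0 k hk, map_zero])
  refine ⟨T, ?_⟩
  have h3 : (fun m => fourierCoeff (fun t => starRingEnd ℂ (θ (-t))) m)
      = fun m => starRingEnd ℂ (fourierCoeff θ m) := funext hc
  rw [h3] at hT
  exact hT

end inner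

end Pool.Agent.Lib.MP_a70d84_an.Ins
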