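import Pool.Agent.Lib.MP_a70d84_an.Ins.Main

/-!
# Transport to an arbitrary Hilbert space with an orthonormal basis
-/

set_option autoImplicit false
open MeasureTheory Filter Topology

namespace Pool.Agent.Lib.MP_a70d84_an.Ins

lemma coord_sum (B : L2 →L[ℂ] L2) (x : L2) (j : ℕ) :
    HasSum (fun k : ℕ => x k * (B (ee k)) j) ((B x) j) := by
  have h := lp.hasSum_single (p := 2) (by norm_num) x
  have h2 := ((innerSL ℂ (ee j)).comp B).hasSum h
  have h3 : ((innerSL ℂ (ee j)).comp B) x = (B x) j := by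
    rw [ContinuousLinearMap.comp_apply, innerSL_apply_apply, inner_ee]
  rw [h3] at h2
  have h4 : (fun k : ℕ => x k * (B (ee k)) j)
      = fun k => ((innerSL ℂ (ee j)).comp B) (lp.single 2 k (x k)) := by
    funext k
    have h5 : (lp.single 2 k (x k) : L2) = x k • ee k := by
      rw [← lp.single_smul]
      simp
    rw [h5, map_smul, ContinuousLinearMap.comp_apply, innerSL_apply_apply, inner_ee, smul_eq_mul]
  rw [h4]
  exact h2

section

variable {H : Type*} [NormedAddCommGroup H] [InnerProductSpace ℂ H] [CompleteSpace H]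
  (e : HilbertBasis ℕ ℂ H)

/-- transport of an operator to `ℓ²` -/
noncomputable def cj (A : H →L[ℂ] H) : L2 →L[ℂ] L2 :=
  (e.repr.toContinuousLinearEquiv : H →L[ℂ] L2).comp
    (A.comp (e.repr.symm.toContinuousLinearEquiv : L2 →L[ℂ] H))

/-- transport of an operator from `ℓ²` -/
noncomputable def cs (B : L2 →L[ℂ] L2) : H →L[ℂ] H :=
  (e.repr.symm.toContinuousLinearEquiv : L2 →L[ℂ] H).comp
    (B.comp (e.repr.toContinuousLinearEquiv : H →L[ℂ] L2))

lemma cj_apply (A : H →L[ℂ] H) (x : L2) : cj e A x = e.repr (A (e.repr.symm x)) := rfl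

lemma cs_apply (B : L2 →L[ℂ] L2) (x : H) : cs e B x = e.repr.symm (B (e.repr x)) := rfl

lemma cj_cs (B : L2 →L[ℂ] L2) : cj e (cs e B) = B := by
  ext x : 1
  rw [cj_apply, cs_apply]
  simp

lemma cj_mul (A B : H →L[ℂ] H) : cj e (A * B) = cj e A * cj e B := by
  ext x : 1
  rw [cj_apply, ContinuousLinearMap.mul_apply, ContinuousLinearMap.mul_apply, cj_apply, cj_apply]
  simp

lemma cj_sub (A B : H →L[ℂ] H) : cj e (A - B) = cj e A - cj e B := by
  ext x : 1
  rw [cj_apply, sub_apply, sub_apply, cj_apply, cj_apply, map_sub]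

lemma norm_cj (A : H →L[ℂ] H) : ‖cj e A‖ = ‖A‖ := by
  apply le_antisymm
  · apply ContinuousLinearMap.opNorm_le_bound _ (norm_nonneg _)
    intro x
    rw [cj_apply, LinearIsometryEquiv.norm_map]
    refine (A.le_opNorm _).trans ?_
    rw [LinearIsometryEquiv.norm_map]
  · apply ContinuousLinearMap.opNorm_le_bound _ (norm_nonneg _)
    intro x
    have h1 := (cj e A).le_opNorm (e.repr x)
    rw [cj_apply, LinearIsometryEquiv.norm_map, LinearIsometryEquiv.norm_map,
      LinearIsometryEquiv.symm_apply_apply] at h1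
    exact h1

lemma cs_adj (B : L2 →L[ℂ] L2) :
    ContinuousLinearMap.adjoint (cs e B) = cs e (ContinuousLinearMap.adjoint B) := by
  ext x : 1
  apply ext_inner_right ℂ
  intro y
  rw [ContinuousLinearMap.adjoint_inner_left, cs_apply, cs_apply,
    ← LinearIsometryEquiv.inner_map_map e.repr, LinearIsometryEquiv.apply_symm_apply,
    ← LinearIsometryEquiv.inner_map_map e.repr (e.repr.symm _), LinearIsometryEquiv.apply_symm_apply,
    ContinuousLinearMap.adjoint_inner_left]

lemma compact_cj (K : H →L[ℂ] H) (hK : IsCompactOperator K) : IsCompactOperator (cj e K) := by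
  have h1 := hK.comp_clm (e.repr.symm.toContinuousLinearEquiv : L2 →L[ℂ] H)
  exact h1.clm_comp (e.repr.toContinuousLinearEquiv : H →L[ℂ] L2)

lemma repr_ee (j : ℕ) : e.repr.symm (ee j) = e j := by
  rw [HilbertBasis.repr_symm_single]

lemma repr_e (j : ℕ) : e.repr (e j) = ee j := HilbertBasis.repr_self e j

lemma section_cj {P : ℕ → (H →L[ℂ] H)} (hP : IsSection e P) (n : ℕ) (x : L2) (j : ℕ) :
    (cj e (P n) x) j = if j ≤ n then x j else 0 := by
  have h1 := coord_sum (cj e (P n)) x j
  have h2 : ∀ k, (cj e (P n) (ee k)) j = if k ≤ n ∧ j = k then 1 else 0 := by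
    intro k
    rw [cj_apply, repr_ee, hP]
    by_cases hk : k ≤ n
    · rw [if_pos hk, repr_e, ee_apply]
      by_cases hj : j = k
      · rw [if_pos hj, if_pos ⟨hk, hj⟩]
      · rw [if_neg hj, if_neg fun h => hj h.2]
    · rw [if_neg hk, map_zero, if_neg fun h => hk h.1]
      rfl
  simp only [h2] at h1
  refine h1.unique ?_
  have h3 : (if j ≤ n then x j else 0) = x j * (if j ≤ n ∧ j = j then 1 else 0) := by
    by_cases hj : j ≤ n
    · rw [if_pos hj, if_pos ⟨hj, rfl⟩, mul_one]
    · rw [if_neg hj, if_neg fun h => hj h.1, mul_zero]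
  rw [h3]
  apply hasSum_single
  intro k hk
  rw [if_neg fun h => hk h.2.symm, mul_zero]

lemma flip_cj {W : ℕ → (H →L[ℂ] H)} (hW : IsFlip e W) (n : ℕ) (x : L2) (j : ℕ) :
    (cj e (W n) x) j = if j ≤ n then x (n - j) else 0 := by
  have h1 := coord_sum (cj e (W n)) x j
  have h2 : ∀ k, (cj e (W n) (ee k)) j = if k ≤ n ∧ j = n - k then 1 else 0 := by
    intro k
    rw [cj_apply, repr_ee, hW]
    by_cases hk : k ≤ n
    · rw [if_pos hk, repr_e, ee_apply]
      by_cases hj : j = n - k
      · rw [if_pos hj, if_pos ⟨hk, hj⟩]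
      · rw [if_neg hj, if_neg fun h => hj h.2]
    · rw [if_neg hk, map_zero, if_neg fun h => hk h.1]
      rfl
  simp only [h2] at h1
  refine h1.unique ?_
  by_cases hj : j ≤ n
  · have h3 : (if j ≤ n then x (n - j) else 0)
        = x (n - j) * (if n - j ≤ n ∧ j = n - (n - j) then 1 else 0) := by
      rw [if_pos hj, if_pos ⟨by omega, by omega⟩, mul_one]
    rw [h3]
    apply hasSum_single
    intro k hk
    rw [if_neg fun h => hk (by omega), mul_zero]
  · rw [if_neg hj]
    have h4 : (fun k : ℕ => x k * (if k ≤ n ∧ j = n - k then (1 : ℂ) else 0)) = fun _ => 0 := by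
      funext k
      rw [if_neg fun h => hj (by omega), mul_zero]
    rw [h4]
    exact hasSum_zero

lemma AA_cj (P : ℕ → (H →L[ℂ] H)) (T S : H →L[ℂ] H) (n : ℕ) :
    cj e (AA P T S n) = AA (fun n => cj e (P n)) (cj e T) (cj e S) n := by
  simp only [AA, cj_mul, cj_sub]

lemma strong_cj {A : ℕ → (H →L[ℂ] H)} (h : StrongLim (fun n => cj e (A n)) 0) :
    StrongLim A 0 := by
  intro x
  have h1 := (e.repr.symm.continuous.tendsto _).comp (h (e.repr x))
  have h2 : e.repr.symm ((0 : L2 →L[ℂ] L2) (e.repr x)) = (0 : H →L[ℂ] H) x := by simp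
  rw [h2] at h1
  refine h1.congr fun n => ?_
  simp only [Function.comp]
  rw [cj_apply, LinearIsometryEquiv.symm_apply_apply, LinearIsometryEquiv.symm_apply_apply]

lemma adj_cj (A : H →L[ℂ] H) :
    cj e (ContinuousLinearMap.adjoint A) = ContinuousLinearMap.adjoint (cj e A) := by
  ext x : 1
  apply ext_inner_right ℂ
  intro y
  rw [ContinuousLinearMap.adjoint_inner_left, cj_apply, cj_apply,
    ← LinearIsometryEquiv.inner_map_map e.repr.symm, LinearIsometryEquiv.symm_apply_apply,
    ContinuousLinearMap.adjoint_inner_left,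
    ← LinearIsometryEquiv.inner_map_map e.repr.symm x, LinearIsometryEquiv.symm_apply_apply]

end

end Pool.Agent.Lib.MP_a70d84_an.Ins
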